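import Pool.Agent.Lib.RYG.Blue

/-! Project ra2: sections over an open set are bounded on compact subsets; surjectivity is an open
condition. -/

open scoped Topology
open Set Complex Filter

noncomputable section

namespace Pool.Agent.Lib.RAG

open Pool.Agent.Lib.SV (E)
open Pool.Agent.Lib.HS32

namespace BDU

theorem rep {n : ℕ} {M : Mf n} {L : M.Co} {Φ : M.Fam ℝ} {U : Set M.X} {g : M.Fam ℂ}
    (hΦ : M.WtC L Φ) (hg : SecU M L U g) {e : M.Ch} (he : e ∈ M.C) {x : M.X} (hx : x ∈ e.source)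
    (hU : x ∈ U) : M.nrC Φ g x = normSq (g e (e x)) * Real.exp (-Φ e (e x)) := by
  obtain ⟨h1, h2⟩ := (M.cov x).choose_spec
  have a : M.ev g x = g e (e x) * L.c e (M.ch x) x := hg.cmp e he _ h1 x hx h2 hU
  have b : M.ev Φ x = Φ e (e x) + Real.log (normSq (L.c e (M.ch x) x)) := hΦ.cmp e he _ h1 x hx h2
  have c : 0 < normSq (L.c e (M.ch x) x) := normSq_pos.2 (L.ne e he _ h1 x hx h2)
  rw [Mf.nrC, a, b, map_mul, neg_add, Real.exp_add, Real.exp_neg (Real.log _), Real.exp_log c]
  field_simp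

theorem isOpen_surj (n r : ℕ) : IsOpen {A : E n →L[ℂ] E r | Function.Surjective A} := by
  refine isOpen_iff_mem_nhds.2 fun A hA => ?_
  obtain ⟨R, hR⟩ := (A : E n →ₗ[ℂ] E r).exists_rightInverse_of_surjective
    (LinearMap.range_eq_top.2 hA)
  have hc : Continuous fun B : E n →L[ℂ] E r => B.comp (LinearMap.toContinuousLinearMap R) := by
    fun_prop
  have h1 : A.comp (LinearMap.toContinuousLinearMap R) = 1 :=
    ContinuousLinearMap.ext fun v => LinearMap.congr_fun hR v
  have h2 : {T : E r →L[ℂ] E r | IsUnit T} ∈ 𝓝 (A.comp (LinearMap.toContinuousLinearMap R)) :=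
    Units.isOpen.mem_nhds (by rw [h1]; exact isUnit_one)
  filter_upwards [hc.continuousAt.preimage_mem_nhds h2] with B hB v
  obtain ⟨u, hu⟩ := hB
  refine ⟨R ((u⁻¹ : (E r →L[ℂ] E r)ˣ).1 v), ?_⟩
  have h3 := congrArg (fun T : E r →L[ℂ] E r => T v) u.mul_inv
  rw [hu] at h3
  exact h3

end BDU

theorem st_BDU : St_BDU := by
  refine ⟨fun n M L Φ U K g hΦ hU hg hK hKU => ?_, BDU.isOpen_surj⟩
  have hc : ContinuousOn (M.nrC Φ g) K := fun x hx => by
    obtain ⟨e, he, hxe⟩ := M.cov x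
    have h1 : ContinuousAt (g e) (e x) :=
      (hg.hol e he _ (e.map_source hxe) (by rw [e.left_inv hxe]; exact hKU hx)).continuousAt
    have h2 : ContinuousAt (Φ e) (e x) := (hΦ.sm e he _ (e.map_source hxe)).continuousAt
    have h3 : ContinuousAt (fun y => normSq (g e (e y)) * Real.exp (-Φ e (e y))) x :=
      (continuous_normSq.continuousAt.comp (h1.comp (e.continuousAt hxe))).mul
        (Real.continuous_exp.continuousAt.comp (h2.comp (e.continuousAt hxe)).neg)
    refine (h3.congr ?_).continuousWithinAt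
    filter_upwards [e.open_source.mem_nhds hxe, hU.mem_nhds (hKU hx)] with y h4 h5
    exact (BDU.rep hΦ hg he h4 h5).symm
  obtain ⟨B, hB⟩ := hK.bddAbove_image hc
  refine ⟨max B 0, le_max_right _ _, fun e he z hz hzK => ?_⟩
  have h1 := BDU.rep hΦ hg he (e.map_target hz) (hKU hzK)
  rw [e.right_inv hz] at h1
  rw [← h1]
  exact (hB ⟨_, hzK, rfl⟩).trans (le_max_left _ _)

end Pool.Agent.Lib.RAG
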