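import Pool.Agent.Lib.RYG.BlueZ
import Pool.Agent.Lib.RY.K_At

/-! Project ra2: coercivity. -/

open scoped Classical Topology ContDiff ComplexOrder Matrix
open Set MeasureTheory Complex Metric Filter

set_option linter.unusedVariables false

noncomputable section

namespace Pool.Agent.Lib.RAG

open Pool.Agent.Lib.SV (E nsq)
open Pool.Agent.Lib.HS32
open Pool.Agent.Lib.RA (SecO no)

namespace COER

variable {n : ℕ} {M : Mf n} {ι : Type} [Fintype ι] {f : M.X → ι → ℂ}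

theorem np {v : ι → ℂ} (h : v ≠ 0) : 0 < nsq v :=
  let ⟨i, hi⟩ := Function.ne_iff.1 h
  Finset.sum_pos' (fun _ _ => normSq_nonneg _) ⟨i, Finset.mem_univ i, normSq_pos.2 hi⟩

theorem no_ne (h : PN.PMap M f) {m : ℕ} {σ : M.X → ℂ} {x : M.X} : no f m σ x ≠ 0 ↔ σ x ≠ 0 := by
  rw [no, div_ne_zero_iff, and_iff_left (pow_pos (np (h.ne x)) m).ne', ne_eq,
    normSq_eq_zero]

/-- The data of the bundle `O(1)` at a point. -/
theorem amp (hOM : St_OM) (hf : PN.PMap M f) (hA : RA.Aff M f) (hK : M.Kae (PN.fs M f))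
    (x : M.X) : ∃ O Ψ h, Amp M (PN.fs M f) O Ψ h x ∧ ∀ (m : ℕ) s, M.HSecC (O.pw m) s →
      ∃ σ, SecO M f m σ ∧ ∀ x, no f m σ x = M.nrC ((m : ℝ) • Ψ) s x := by
  obtain ⟨O, Ψ, o1, o2, o3⟩ := hOM n M _ f hf hA
  obtain ⟨i, hi⟩ := Function.ne_iff.1 (hf.ne x)
  choose h h1 h2 using fun m => (o3 m).1 i
  exact ⟨O, Ψ, h, ⟨hK, o1, o2, h1, fun m =>
    Mf.nrC_ne.1 (h2 m x ▸ (no_ne hf).2 (pow_ne_zero m hi))⟩, fun m => (o3 m).2⟩

theorem log_bd {a b v C Q : ℝ} (a0 : 0 < a) (b0 : 0 < b) (v0 : 0 < v) (C0 : 0 < C) (ha : a ≤ Q)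
    (hb : b ≤ Q) (h : v ≤ C * (a * b)) :
    |Real.log a - Real.log b| ≤ 2 * |Real.log Q| + |Real.log C| + |Real.log v| := by
  have h1 := Real.log_le_log v0 h
  rw [Real.log_mul C0.ne' (by positivity), Real.log_mul a0.ne' b0.ne'] at h1
  have h2 := Real.log_le_log a0 ha
  have h3 := Real.log_le_log b0 hb
  have h4 := le_abs_self (Real.log Q)
  have h5 := le_abs_self (Real.log C)
  have h6 := neg_abs_le (Real.log v)
  exact abs_le.2 ⟨by linarith, by linarith⟩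

end COER

open COER in
theorem st_COER (hCO : St_CO0) (hOM : St_OM) (hMS : St_MSEC) (hIDO : St_IDO) (hE1 : St_E1)
    (hMIN : RA.St_MIN) (hPSI : KP.St_PSI1) : RA.St_COER := by
  intro n k j p d M _ Λ g f L φ μ V ρ x₀ Φ δ c O H σ ψ δ' c₁ hn hP hAf hS hL hF hB hH
  have hf := hP.map
  have hK := hS.kae
  obtain ⟨L₁, Ψ, h, hA, o3⟩ := amp hOM hf hAf hK x₀
  obtain ⟨N, s, s1, s2⟩ := hMS n M _ L L₁ φ Ψ h x₀ hA hL
  have p1 := (hA.wt.pw N).1
  have p2 := (hL.tn p1).1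
  have s4 := (p2.tn p1).1
  have s3 := s1.tn (hA.sec N)
  have hq := Mf.nrC_mul (φ + (N : ℝ) • Ψ) ((N : ℝ) • Ψ) s (h N)
  generalize φ + (N : ℝ) • Ψ + (N : ℝ) • Ψ = Θ at s4 hq
  generalize (fun e z => s e z * h N e z) = s' at s3 hq
  obtain ⟨C₂, c2, h2⟩ := hPSI n M _ _ s' Θ hK.toMet s3 s4
  obtain ⟨C₃, -, h3, -⟩ := (mBD n M _ hK.toMet).1 _ s4.clo.toForm
  obtain ⟨C₁, h1⟩ := hE1 n k j M φ μ V ρ x₀ Φ δ c O H σ ψ δ' c₁ hF hB hH
  obtain ⟨CL, -, hl⟩ := hF.lip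
  obtain ⟨m, t, c', C, c0, C0, t1, t2, t3⟩ := hCO n k M _ L₁ Ψ (M.hw φ) ρ (RA.mu0 Φ 0) x₀
    c₁ C₁ (C₂ + C₃) (M.nrC Θ s') hK hA.wt hA.cur (fun m => ⟨_, hA.sec m, hA.ne m⟩)
    hL.clo.toForm hF.z0
    (fun b ε hε => by
      obtain ⟨P, ξ, h⟩ := hMIN n k j M φ _ μ V ρ b ε hS.toPot hF hε
      refine ⟨P, h.sm, h.psd, fun x => ⟨h.le x, ξ x, ?_⟩⟩
      rw [h.eq x]
      exact le_add_of_nonneg_right (mul_nonneg hε.le
        (Finset.sum_nonneg fun i _ => mul_self_nonneg _)))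
    (fun x => by
      obtain ⟨a, a1, a2, -⟩ := V.cov x
      have b : ball (V.e a x) (V.ρ a) ⊆ closedBall (V.c a) (2 * V.ρ a) :=
        (ball_subset_ball' (by linarith [mem_ball.1 a2])).trans ball_subset_closedBall
      exact ⟨V.e a, V.mem a, a1, V.ρ a, CL, V.pos a, fun ξ z hz z' hz' =>
        hl ξ a z (b hz) z' (b hz')⟩)
    hH.c0 h1 (s4.nr_sm s3.toSecC) (Mf.nrC_nonneg _ _)
    (hq x₀ ▸ mul_ne_zero (Mf.nrC_ne.2 s2) (Mf.nrC_ne.2 (hA.ne N)))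
    (fun ε hε e he z hz => by
      have a := Mf.nrC_nonneg Θ s' (e.symm z)
      have b : 0 ≤ C₂ - C₂ * (ε / (M.nrC Θ s' (e.symm z) + ε)) := sub_nonneg.2
        (mul_le_of_le_one_right c2.le ((div_le_one (by positivity)).2 (by linarith)))
      refine (congrArg Matrix.PosSemidef ?_).mp (((h2 ε hε e he z hz).add (h3 e he z hz)).add
        (Mf.psd_rsmul (hK.pos e he z hz).posSemidef b))
      simp only [Pi.add_apply, Pi.smul_apply, Pi.zero_apply]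
      module)
  obtain ⟨θ, θ1, θ2⟩ := o3 m t t1
  have θ4 : ∀ x, θ x ≠ 0 ↔ M.ev t x ≠ 0 := fun x => by
    rw [← no_ne hf (m := m), θ2]
    exact Mf.nrC_ne
  obtain ⟨i1, i2⟩ := hIDO n M _ f m θ x₀ hf θ1 ((θ4 x₀).2 t2)
  obtain ⟨Q₁, Q1, hQ1⟩ := (p2.nr_sm s1.toSecC).exists_bound
  obtain ⟨Q₂, Q2, hQ2⟩ := (p1.nr_sm (hA.sec N).toSecC).exists_bound
  have v0 : ∀ x, θ x ≠ 0 → 0 < M.nrC ((m : ℝ) • Ψ) t x := fun x h0 =>
    (Mf.nrC_nonneg _ t x).lt_of_ne' (Mf.nrC_ne.2 ((θ4 x).1 h0))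
  have nz : ∀ x, θ x ≠ 0 → M.ev s x ≠ 0 ∧ M.ev (h N) x ≠ 0 := fun x h0 => by
    have a := ((mul_pos_iff_of_pos_left C0).1 ((v0 x h0).trans_le (t3 x).1)).ne'
    rw [hq] at a
    exact ⟨Mf.nrC_ne.1 (left_ne_zero_of_mul a), Mf.nrC_ne.1 (right_ne_zero_of_mul a)⟩
  have l0 := abs_nonneg (Real.log C)
  have l2 := abs_nonneg (Real.log (Q₁ + Q₂))
  have CQ : 0 ≤ C * (Q₁ * Q₂) := by positivity
  refine ⟨m, θ, fun e z => s e z / h N e z, θ1, ⟨fun e he e' he' x hx hx' _ => ?_,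
    fun x h0 e he hx => ?_, fun e he z hz => ⟨s e, h N e, s1.holN e he z hz,
      (hA.sec N).holN e he z hz, ?_, Eventually.of_forall fun _ _ _ => rfl⟩⟩, i2, i1, c',
    C + C * (Q₁ * Q₂) + 2 * |Real.log (Q₁ + Q₂)| + |Real.log C| + 1, c0, by positivity,
    fun x => ?_⟩
  · have a := s1.cmp e he e' he' x hx hx'
    have b := (hA.sec N).cmp e he e' he' x hx hx'
    have d := (L₁.pw N).ne e he e' he' x hx hx'
    simp only [Mf.Co.tn] at a b d ⊢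
    rw [a, b, ← mul_assoc, mul_div_mul_right _ _ d, pow_one, mul_div_right_comm]
  · have a := (s1.toSecC.ne_iff he hx).1 (nz x h0).1
    have b := ((hA.sec N).toSecC.ne_iff he hx).1 (nz x h0).2
    refine ⟨?_, div_ne_zero a b⟩
    have d := (hA.sec N).holN.at he hx
    filter_upwards [s1.holN.at he hx, d, d.self_of_nhds.continuousAt.eventually_ne b]
      with w w1 w2 w3
    exact (w1.mul (w2.inv w3)).congr_of_eventuallyEq
      (Eventually.of_forall fun _ => div_eq_mul_inv _ _)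
  · intro h0
    have hy := e.map_target hz
    have a : ∀ᶠ y in 𝓝 (e.symm z), ¬h N e (e y) ≠ 0 :=
      (e.continuousAt hy).eventually (p := fun w => ¬h N e w ≠ 0) (by rwa [e.right_inv hz])
    obtain ⟨y, y1, y2, y3⟩ := i2.inter_nhds_nonempty (a.and (e.open_source.mem_nhds hy))
    exact y2 (((hA.sec N).toSecC.ne_iff he y3).1 (nz y y1).2)
  obtain ⟨t4, t5⟩ := t3 x
  have q1 := (le_abs_self _).trans (hQ1 x)
  have q2 := (le_abs_self _).trans (hQ2 x)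
  rw [hq] at t4
  rw [θ2]
  have q3 := mul_le_mul_of_nonneg_left (mul_le_mul q1 q2 (Mf.nrC_nonneg _ _ _) Q1.le) C0.le
  refine ⟨by linarith, fun h0 => ?_⟩
  have l1 := abs_nonneg (Real.log (M.nrC ((m : ℝ) • Ψ) t x))
  refine ⟨fun ξ => le_trans ?_ (t5 ((θ4 x).1 h0) ξ), ?_⟩
  · gcongr
    linarith
  · obtain ⟨n1, n2⟩ := nz x h0
    have a := log_bd (Q := Q₁ + Q₂) ((Mf.nrC_nonneg _ s x).lt_of_ne' (Mf.nrC_ne.2 n1))
      ((Mf.nrC_nonneg _ _ x).lt_of_ne' (Mf.nrC_ne.2 n2)) (v0 x h0) C0 (by linarith) (by linarith) t4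
    have b : Real.log (normSq (M.ev (fun e z => s e z / h N e z) x)) - M.ev φ x =
        Real.log (M.nrC (φ + (N : ℝ) • Ψ) s x) - Real.log (M.nrC ((N : ℝ) • Ψ) (h N) x) := by
      have m1 := (normSq_pos.2 n1).ne'
      have m2 := (normSq_pos.2 n2).ne'
      rw [Mf.nrC, Mf.nrC, Real.log_mul m1 (Real.exp_pos _).ne', Real.log_mul m2 (Real.exp_pos _).ne',
        Real.log_exp, Real.log_exp]
      change Real.log (normSq (M.ev s x / M.ev (h N) x)) - _ = _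
      rw [map_div₀, Real.log_div m1 m2]
      simp only [Mf.ev, Pi.add_apply]
      ring
    rw [b]
    linarith [mul_nonneg (show 0 ≤ C + C * (Q₁ * Q₂) + 2 * |Real.log (Q₁ + Q₂)| + |Real.log C| by
      positivity) l1]

end Pool.Agent.Lib.RAG
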