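import Pool.Agent.Lib.RYG.Blue
import Pool.Agent.Lib.KP.B_LAM
import Pool.Agent.Lib.HS32.B_BD
import Pool.Agent.Lib.RY.B_LEV

/-! Project ra2, coercivity: the weights with a logarithmic pole. -/

open scoped Classical Topology ContDiff ComplexOrder Matrix
open Set Complex Metric Filter

noncomputable section

namespace Pool.Agent.Lib.RAG

open Pool.Agent.Lib.SV (E nsq)
open Pool.Agent.Lib.HS32 Pool.Agent.Lib.RA Pool.Agent.Lib.RA.BLEV

theorem st_CUT : St_CUT := by
  intro n r M T U H s c h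
  have hs := h.s0
  have hc := h.c0
  obtain ⟨u, L, hL, hu⟩ := KP.T42.pole (0 : Mat r) (show 0 < s / 4 by positivity)
  simp only [Matrix.zero_mulVec, sub_zero] at hu
  have hq : 0 ≤ L / c := by positivity
  have ha := abs_nonneg (Real.log ((s / 4) ^ 2))
  set C := L + L / c + |Real.log ((s / 4) ^ 2)| with hC
  have C0 : 0 ≤ C := by positivity
  refine ⟨C, C0, fun δ hδ => ?_⟩
  obtain ⟨u1, -, u2, u3, u4, u5, u6⟩ := hu δ hδ
  set l : M.X → ℝ := fun x => if x ∈ U then u δ (H x) else 0 with hl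
  have key : M.All fun e z => ContDiffAt ℝ ∞ (l ∘ e.symm) z ∧
      ∀ v, -(L / c * nq (T e z) v) ≤ lev (l ∘ e.symm) z v := by
    intro e he z hz
    have t := e.continuousAt_symm hz
    have hT : ∀ v, 0 ≤ nq (T e z) v := fun v => by
      simpa [nq] using (Complex.nonneg_iff.1 ((h.psd e he z hz).dotProduct_mulVec_nonneg v)).1
    by_cases hx : e.symm z ∈ U ∧ ‖H (e.symm z)‖ ≤ s
    · have h1 : ∀ᶠ w in 𝓝 z, e.symm w ∈ U := t.eventually_mem (h.opn.mem_nhds hx.1)
      have h2 : ∀ᶠ w in 𝓝 z, DifferentiableAt ℂ (H ∘ e.symm) w :=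
        (h1.and (e.open_target.mem_nhds hz)).mono fun w hw => h.hol e he w hw.2 hw.1
      have h3 : l ∘ e.symm =ᶠ[𝓝 z] u δ ∘ H ∘ e.symm := h1.mono fun w hw => if_pos hw
      refine ⟨(u1.contDiffAt.comp z ((hol_cd h2).restrict_scalars ℝ)).congr_of_eventuallyEq h3,
        fun v => ?_⟩
      rw [lev_congr h3, lev_comp u1.contDiffAt h2, st_LEV.1 _ _ _ _ u1.contDiffAt]
      refine le_trans (neg_le_neg ?_) (u6 _ _)
      have := mul_le_mul_of_nonneg_left (h.low e he z hz hx.1 hx.2 v) hq
      rwa [← mul_assoc, div_mul_cancel₀ _ hc.ne'] at this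
    · have h3 : l ∘ e.symm =ᶠ[𝓝 z] fun _ => 0 := by
        filter_upwards [t.eventually_mem (h.cl.isOpen_compl.mem_nhds hx)] with w hw
        simp only [hl, Function.comp]
        split_ifs with h4
        · exact u2 _ (by linarith [not_le.1 fun h5 => hw ⟨h4, h5⟩])
        · rfl
      refine ⟨contDiffAt_const.congr_of_eventuallyEq h3, fun v => ?_⟩
      rw [lev_congr h3]
      simpa [lev] using mul_nonneg hq (hT v)
  refine ⟨l, fun e he z hz => (key e he z hz).1, fun e he z hz => ?_, fun x => ?_,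
    fun x hx h1 => (if_pos hx).trans (u4 _ h1), fun x hx h1 => ?_⟩
  · obtain ⟨k1, k2⟩ := key e he z hz
    have p := h.psd e he z hz
    simp only [Pi.add_apply, Pi.smul_apply, Pi.zero_apply, sub_zero] at p ⊢
    have := BBD.psd p.1 (hess_herm k1) (s := C) (t := 1) fun v => by
      have h1 := k2 v
      rw [st_LEV.1 _ _ _ _ k1] at h1
      have h2 : 0 ≤ nq (T e z) v := (Complex.nonneg_iff.1 (p.dotProduct_mulVec_nonneg v)).1
      have h3 := mul_le_mul_of_nonneg_right (show L / c ≤ C by linarith) h2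
      rw [one_mul]
      exact le_trans (by linarith) (add_le_add le_rfl h1)
    rwa [one_smul] at this
  · simp only [hl]
    split_ifs
    · linarith [u3 (H x)]
    · exact C0
  · simp only [hl, if_pos hx]
    linarith [u5 (H x) (s / 4) (by positivity) h1]

end Pool.Agent.Lib.RAG
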