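import Pool.Agent.Lib.RYG.Blue

/-! Project ra2, row E1: coercivity near the centre of a box. -/

open scoped Classical Topology ContDiff ComplexOrder Matrix
open Set MeasureTheory Complex Metric Filter

set_option linter.unusedVariables false

noncomputable section

namespace Pool.Agent.Lib.RAG

open Pool.Agent.Lib.SV (E nsq)
open Pool.Agent.Lib.HS32
open Pool.Agent.Lib.RA

namespace E1

variable {k j : ℕ}

theorem sx_sh (t : E (k + j)) (a : Fin k → ℝ) : sx (sh t a) = sx t := by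
  funext l
  simp [sx, sh, io]

theorem r2_sh (t : E (k + j)) (a : Fin k → ℝ) : r2 (fx (sh t a)) = r2 (fx t) + a := by
  funext i
  simp [r2, fx, sh, io, cx]
  ring

theorem cont_sx : Continuous (sx : E (k + j) → E j) :=
  continuous_pi fun l => continuous_apply _

theorem cont_r2 : Continuous fun t : E (k + j) => r2 (fx t) :=
  continuous_pi fun l => continuous_const.mul (Complex.continuous_re.comp (continuous_apply _))

theorem cont_ap : Continuous fun t : E (k + j) => (Fin.append (0 : E k) (sx t) : E (k + j)) := by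
  refine continuous_pi fun i => ?_
  refine Fin.addCases (fun a => ?_) (fun l => ?_) i
  · simp only [Fin.append_left]
    exact continuous_const
  · simp only [Fin.append_right]
    exact continuous_apply _

theorem ap_zero : (Fin.append (0 : E k) (sx (0 : E (k + j))) : E (k + j)) = 0 := by
  funext i
  refine Fin.addCases (fun a => ?_) (fun l => ?_) i
  · simp
  · simp [sx]

theorem dot_le (b a : Fin k → ℝ) : b ⬝ᵥ a ≤ (∑ i, |b i|) * ‖a‖ := by
  rw [Finset.sum_mul]
  refine Finset.sum_le_sum fun i _ => ?_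
  calc b i * a i ≤ |b i * a i| := le_abs_self _
    _ = |b i| * |a i| := abs_mul _ _
    _ ≤ |b i| * ‖a‖ := mul_le_mul_of_nonneg_left (norm_le_pi_norm a i) (abs_nonneg _)

end E1

open E1 in
theorem st_E1 : St_E1 := by
  intro n k j M φ μ V ρ x₀ Φ δ c O H σ ψ δ' c₁ hF hB hP
  obtain ⟨C, hC, hlin⟩ := hF.lin
  have hA := hP.box x₀ hB.mem
  have hδ : 0 < δ := hB.tv.d0
  have hc₁ := hP.c0
  have hH : ContinuousAt H x₀ := hA.iso.1.cont
  have hH0 : Tendsto H (𝓝 x₀) (𝓝 0) := by simpa only [ContinuousAt, hB.zero] using hH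
  have hsx0 : sx (0 : E (k + j)) = 0 := rfl
  have hr0 : r2 (fx (0 : E (k + j))) = 0 := by
    funext i
    simp [r2, fx]
  have hψ : ContinuousAt ψ 0 := (hP.an 0 (by rw [hsx0, norm_zero]; positivity)).continuousAt
  set b := mu0 Φ 0 with hb
  have h1 : Tendsto (fun y => ψ (Fin.append 0 (sx (H y)))) (𝓝 x₀) (𝓝 (ψ 0)) := by
    refine hψ.tendsto.comp ?_
    have := (cont_ap (k := k) (j := j)).continuousAt (x := 0) |>.tendsto.comp hH0
    rwa [ap_zero] at this
  have h2 : Tendsto (fun y => ψ (H y)) (𝓝 x₀) (𝓝 (ψ 0)) := hψ.tendsto.comp hH0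
  have h3 : Tendsto (fun y => r2 (fx (H y))) (𝓝 x₀) (𝓝 0) := by
    have := (cont_r2 (k := k) (j := j)).continuousAt (x := 0) |>.tendsto.comp hH0
    rwa [hr0] at this
  have h4 : Tendsto (fun y => sx (H y)) (𝓝 x₀) (𝓝 0) := by
    have := (cont_sx (k := k) (j := j)).continuousAt (x := 0) |>.tendsto.comp hH0
    rwa [hsx0] at this
  have h5 : Tendsto (fun y => b ⬝ᵥ r2 (fx (H y))) (𝓝 x₀) (𝓝 0) := by
    have hc : Continuous fun a : Fin k → ℝ => b ⬝ᵥ a := continuous_const.dotProduct continuous_id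
    have := (hc.tendsto 0).comp h3
    rwa [dotProduct_zero] at this
  have h6 : Tendsto (fun y => ψ (Fin.append 0 (sx (H y))) - ψ (H y) + b ⬝ᵥ r2 (fx (H y)) -
      c₁ * ‖r2 (fx (H y))‖) (𝓝 x₀) (𝓝 0) := by
    have := ((h1.sub h2).add h5).sub (h3.norm.const_mul c₁)
    simpa using this
  have e1 := h6.eventually (lt_mem_nhds (show (-1 : ℝ) < 0 by norm_num))
  have e2 := h3.norm.eventually (gt_mem_nhds (show ‖(0 : Fin k → ℝ)‖ < 1 by simp))
  have e3 := h4.norm.eventually (gt_mem_nhds (show ‖(0 : E j)‖ < δ' by simpa using hP.d0))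
  have hS : 0 ≤ ∑ i, |b i| := Finset.sum_nonneg fun i _ => abs_nonneg _
  refine ⟨1 + (c₁ + C + ∑ i, |b i|) * (δ + 1), ?_⟩
  filter_upwards [e1, e2, e3, hA.fam] with y a1 a2 a3 a4 ξ
  have hn : ‖ξ‖ ≤ ‖r2 (fx (H y)) + ξ‖ + ‖r2 (fx (H y))‖ := by
    simpa using norm_sub_le (r2 (fx (H y)) + ξ) (r2 (fx (H y)))
  have hpos : 0 ≤ (c₁ + C + ∑ i, |b i|) * (δ + 1) := by positivity
  by_cases h : δ ≤ ‖r2 (fx (H y)) + ξ‖
  · have hco := hP.coe (sh (H y) ξ) (by rw [sx_sh]; exact a3.le) (by rw [r2_sh]; exact h)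
    rw [sx_sh, r2_sh, ← hb, dotProduct_add] at hco
    have := mul_le_mul_of_nonneg_left hn hc₁.le
    rw [a4 ξ]
    nlinarith
  · have hξ : ‖ξ‖ ≤ δ + 1 := by linarith [not_le.1 h]
    have b1 := (abs_le.1 (hlin ξ y)).1
    have b2 := dot_le b ξ
    have b3 : (c₁ + C + ∑ i, |b i|) * ‖ξ‖ ≤ (c₁ + C + ∑ i, |b i|) * (δ + 1) :=
      mul_le_mul_of_nonneg_left hξ (by positivity)
    nlinarith

end Pool.Agent.Lib.RAG
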