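import Pool.Agent.Lib.RYG.Blue
import Pool.Agent.Lib.RY.B_CH2
import Pool.Agent.Lib.RY.K_At

/-! Project ra2: jets of quotients. -/

open scoped Classical Topology ContDiff ComplexOrder Matrix
open Set MeasureTheory Complex Metric Filter

set_option linter.unusedVariables false

noncomputable section

namespace Pool.Agent.Lib.RAG

open Pool.Agent.Lib.SV (E nsq)
open Pool.Agent.Lib.HS32 Pool.Agent.Lib.RA

namespace G2

variable {n r : ℕ}

theorem le_nsq (v : E r) : ‖v‖ ^ 2 ≤ nsq v := by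
  have h0 : 0 ≤ nsq v := Finset.sum_nonneg fun j _ => normSq_nonneg _
  rw [← Real.le_sqrt (norm_nonneg _) h0]
  refine (pi_norm_le_iff_of_nonneg (Real.sqrt_nonneg _)).2 fun j => ?_
  rw [Real.le_sqrt (norm_nonneg _) h0, ← normSq_eq_norm_sq]
  exact Finset.single_le_sum (f := fun j => normSq (v j)) (fun j _ => normSq_nonneg _)
    (Finset.mem_univ j)

theorem low {T : Mat n} {J : Matrix (Fin r) (Fin n) ℂ} {c : ℝ} (hc : 0 ≤ c)
    (h : (T - (c : ℂ) • (Jᴴ * (1 : Mat r) * J)).PosSemidef) (v : E n) : c * ‖J *ᵥ v‖ ^ 2 ≤ nq T v := by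
  have a := (Complex.nonneg_iff.1 (h.dotProduct_mulVec_nonneg v)).1
  have b : (star v ⬝ᵥ (Jᴴ * (1 : Mat r) * J) *ᵥ v).re = nsq (J *ᵥ v) := by
    rw [Matrix.mul_one, ← Matrix.mulVec_mulVec, Matrix.dotProduct_mulVec, ← Matrix.star_mulVec]
    simp only [dotProduct, nsq, re_sum, Pi.star_apply]
    exact Finset.sum_congr rfl fun i _ => by simp [normSq_apply]
  rw [Matrix.sub_mulVec, dotProduct_sub, sub_re, Matrix.smul_mulVec, dotProduct_smul, smul_eq_mul,
    re_ofReal_mul, b, sub_nonneg] at a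
  exact (mul_le_mul_of_nonneg_left (le_nsq _) hc).trans a

/-- The derivative of the quotients as a function of the jets. -/
def qd (p : Option (Fin r) → ℂ × (E n →L[ℂ] ℂ)) : E n →L[ℂ] E r :=
  ContinuousLinearMap.pi fun i =>
    (p none).1⁻¹ • (p (some i)).2 - ((p (some i)).1 * ((p none).1 ^ 2)⁻¹) • (p none).2

theorem qd_cont {p : Option (Fin r) → ℂ × (E n →L[ℂ] ℂ)} (h : (p none).1 ≠ 0) :
    ContinuousAt qd p := by
  refine continuousAt_clm_apply.2 fun v => continuousAt_pi.2 fun i => ?_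
  have a : ∀ o, Continuous fun p : Option (Fin r) → ℂ × (E n →L[ℂ] ℂ) => (p o).1 :=
    fun o => by fun_prop
  have b : ∀ o, Continuous fun p : Option (Fin r) → ℂ × (E n →L[ℂ] ℂ) => (p o).2 v :=
    fun o => (by fun_prop : Continuous fun p : Option (Fin r) → ℂ × (E n →L[ℂ] ℂ) =>
      (p o).2).clm_apply continuous_const
  exact (((a none).continuousAt.inv₀ h).mul (b _).continuousAt).sub
    (((a _).continuousAt.mul (((a none).continuousAt.pow 2).inv₀ (pow_ne_zero 2 h))).mul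
      (b none).continuousAt)

theorem qd_eq {t : Option (Fin r) → E n → ℂ} {z : E n} (h : ∀ o, DifferentiableAt ℂ (t o) z)
    (h0 : t none z ≠ 0) :
    fderiv ℂ (fun w i => t (some i) w / t none w) z = qd fun o => (t o z, fderiv ℂ (t o) z) := by
  refine (hasFDerivAt_pi.2 fun i => ?_).fderiv
  have a := (h (some i)).hasFDerivAt.mul
    ((hasDerivAt_inv h0).comp_hasFDerivAt z (h none).hasFDerivAt)
  simp only [div_eq_mul_inv]
  refine a.congr_fderiv ?_
  ext1 v
  simp
  ring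

theorem near (hO : IsOpen {A : E n →L[ℂ] E r | Function.Surjective A})
    {g : Option (Fin r) → E n → ℂ} {z : E n} (h : ∀ o, DifferentiableAt ℂ (g o) z)
    (h0 : g none z ≠ 0)
    (hs : Function.Surjective (fderiv ℂ (fun w i => g (some i) w / g none w) z)) :
    ∃ κ : ℝ, 0 < κ ∧ ∀ t : Option (Fin r) → E n → ℂ, (∀ o, DifferentiableAt ℂ (t o) z) →
      (∀ o, ‖t o z - g o z‖ ≤ κ ∧ ‖fderiv ℂ (t o) z - fderiv ℂ (g o) z‖ ≤ κ) →
      t none z ≠ 0 ∧ Function.Surjective (fderiv ℂ (fun w i => t (some i) w / t none w) z) := by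
  rw [qd_eq h h0] at hs
  have a : ∀ᶠ p in 𝓝 fun o => (g o z, fderiv ℂ (g o) z), Function.Surjective (qd p) :=
    (qd_cont h0).eventually (hO.mem_nhds hs)
  have b : ∀ᶠ p in 𝓝 fun o => (g o z, fderiv ℂ (g o) z), (p none).1 ≠ 0 :=
    (continuous_apply none).fst.continuousAt.eventually_ne h0
  obtain ⟨κ, k0, hk⟩ := nhds_basis_closedBall.eventually_iff.1 (a.and b)
  refine ⟨κ, k0, fun t ht hd => ?_⟩
  have := hk (x := fun o => (t o z, fderiv ℂ (t o) z)) (by
    rw [mem_closedBall, dist_pi_le_iff k0.le]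
    intro o
    rw [Prod.dist_eq, dist_eq_norm, dist_eq_norm]
    exact max_le (hd o).1 (hd o).2)
  exact ⟨this.2, by rw [qd_eq ht this.2]; exact this.1⟩

end G2

end Pool.Agent.Lib.RAG
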