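import Pool.Agent.Lib.RYG.G56
import Pool.Agent.Lib.RYG.K_G2
import Pool.Agent.Lib.RYG.B_COER
import Pool.Agent.Lib.RY.Top

/-! Project ra2: the last step for pairs. -/

open scoped Classical Topology ContDiff ComplexOrder Matrix
open Set MeasureTheory Complex Metric Filter

set_option linter.unusedVariables false

noncomputable section

namespace Pool.Agent.Lib.RAG

open Pool.Agent.Lib.SV (E nsq)
open Pool.Agent.Lib.HS32 Pool.Agent.Lib.RA Pool.Agent.Lib.RA2.T56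

theorem st_REC : St_REC := by
  intro n r m M L φ x U H δ c s D hP hD
  obtain ⟨e, he, hx⟩ := M.cov x
  have d2 : (0 : ℝ) < δ / 2 := half_pos hP.d0
  have a : ∀ᶠ y in 𝓝 x, Function.Surjective (fderiv ℂ (H ∘ e.symm) (e y)) :=
    ((ANB.analyticAt (hP.hol x hP.mem e he hx)).fderiv.continuousAt.comp
      (e.continuousAt hx)).eventually ((st_BDU.2 n r).mem_nhds (hP.sub e he hx))
  have b : ∀ᶠ y in 𝓝 x, ‖H y‖ < δ / 2 :=
    (hP.hol x hP.mem).cont.norm.eventually_lt continuousAt_const (by rwa [hP.zero, norm_zero])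
  obtain ⟨y, yD, y1, y2, y3, y4⟩ := hD.inter_nhds_nonempty
    (a.and (b.and ((hP.op.eventually_mem hP.mem).and (e.open_source.eventually_mem hx))))
  have fd : ∀ (a : M.Ch) z, fderiv ℂ ((fun w => H w - H y) ∘ a.symm) z =
      fderiv ℂ (H ∘ a.symm) z := fun a z => fderiv_sub_const (f := H ∘ a.symm) (H y)
  refine ⟨y, yD, hP.m0, d2, hP.c0, hP.op, y3, sub_self _, fun w hw a ha hwa =>
    (hP.hol w hw a ha hwa).mono fun _ h => h.sub_const _, fun a ha hya => ?_, ?_,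
    fun w hw a ha hwa => ?_, hP.cmp, hP.sec⟩
  · beta_reduce
    rw [fd]
    exact KA.subm_of (hP.hol y y3) he y4 y1 a ha hya
  · have : {w | w ∈ U ∧ ‖H w - H y‖ ≤ δ / 2} =
        {w | w ∈ U ∧ ‖H w‖ ≤ δ} ∩ (fun w => ‖H w - H y‖) ⁻¹' Iic (δ / 2) := by
      ext w
      refine ⟨fun h => ⟨⟨h.1, ?_⟩, h.2⟩, fun h => ⟨h.1.1, h.2⟩⟩
      linarith [norm_le_norm_add_norm_sub' (H w) (H y), h.2]
    rw [this]
    exact ContinuousOn.preimage_isClosed_of_isClosed (fun w hw =>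
      ((hP.hol w hw.1).cont.sub continuousAt_const).norm.continuousWithinAt) hP.cl isClosed_Iic
  · have := hP.lo w hw a ha hwa
    simp only [pb, jr, fd] at this ⊢
    exact this

open G2 COER in
theorem st_G2 (hGP : St_GPK2) (hWT : KP.St_WT) (hOM : St_OM) (hIDO : St_IDO) : RA.St_G2 := by
  intro n r m M _ ι _ f L LB LE m₀ fB g φ x₂ U H δ c s hn hf hAf hS hL hQ hP
  obtain ⟨k, rfl⟩ : ∃ k, m₀ = k + 1 := ⟨m₀ - 1, by have := hQ.m0; omega⟩
  obtain ⟨φB, wB⟩ := hWT n M LB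
  obtain ⟨φE, wE⟩ := hWT n M LE
  have hK := hS.kae
  obtain ⟨O, Ψ, h, hA, o3⟩ := amp hOM hf hAf hK x₂
  obtain ⟨t1, t2⟩ := wE.pw k
  obtain ⟨t3, t4⟩ := wB.tn t1
  obtain ⟨C, -, -, hC⟩ := (mBD n M _ hK.toMet).1 _ t3.clo.toForm
  obtain ⟨N, hN⟩ := exists_nat_ge C
  obtain ⟨p1, p2⟩ := hA.wt.pw N
  obtain ⟨θ, θ1, θ2⟩ := o3 N _ (hA.sec N)
  have θ4 : ∀ x, θ x ≠ 0 ↔ M.nrC ((N : ℝ) • Ψ) (h N) x ≠ 0 := fun x => by
    rw [← no_ne hf (m := N), θ2]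
  obtain ⟨i1, i2⟩ := hIDO n M _ f N θ x₂ hf θ1 ((θ4 x₂).2 (Mf.nrC_ne.2 (hA.ne N)))
  obtain ⟨y, ⟨y1, y2⟩, hY⟩ := st_REC n r m M L φ x₂ U H δ c s _ hP (hQ.den.inter_of_isOpen_right i2 i1)
  have D : Pd M k (PN.fs M f) L LB LE (O.pw N) φ φB φE ((N : ℝ) • Ψ) fB g (h N) :=
    ⟨hK, hL, wB, wE, ⟨hA.sec N, p1, i2.mono fun x hx => (θ4 x).1 hx⟩, hQ.hB, hQ.hE, hQ.rel,
      fun e he z hz => by
      have e1 := t2 e he z hz
      have e2 := t4 e he z hz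
      have e3 := p2 e he z hz
      have e4 := hA.cur e he z hz
      beta_reduce at e1 e2 e3 e4
      have b : 0 ≤ ((k + 1 : ℕ) : ℝ) * N - C := by
        have : (0 : ℝ) ≤ k * N := by positivity
        push_cast
        linarith
      refine (congrArg Matrix.PosSemidef ?_).mp ((hC e he z hz).add
        (Mf.psd_rsmul (hK.pos e he z hz).posSemidef b))
      simp only [Pi.add_apply, Pi.smul_apply, Pi.neg_apply, Pi.zero_apply, e1, e2, e3, e4]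
      module⟩
  obtain ⟨c', c1, c2⟩ := hQ.lct
  obtain ⟨e, he, hy⟩ := M.cov y
  exact D.grow hGP c1.le c2 (s := δ / 2) (c₀ := c) ⟨hY.d0, hY.c0, hY.op, fun e he z hz hU =>
    (KA.at_tgt he hz (hY.hol _ hU)).self_of_nhds, hY.cl, hS.psd, fun e he z hz hU _ v => by
      rw [BCH2.fderiv_mulVec]
      exact low hY.c0.le (KA.at_tgt he hz (hY.lo _ hU)) v⟩ he hy hY.mem hY.zero (hY.sub e he hy)
    hY.m0 (σ := s) ⟨fun e he z hz hU => (KA.at_tgt he hz (hY.sec _ hU)).1.self_of_nhds, hY.cmp⟩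
    (hY.sec y hY.mem e he hy).2 ((hQ.hE.toSecC.ne_iff he hy).1 y1)
    (((hA.sec N).toSecC.ne_iff he hy).1 (Mf.nrC_ne.1 ((θ4 y).1 y2)))

end Pool.Agent.Lib.RAG
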