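import Pool.Agent.Lib.RYG.Blue
import Pool.Agent.Lib.RY.Kit

/-! Project ra2, coercivity and the last step for pairs: the statements of the new blocks. -/

open scoped Classical Topology ContDiff ComplexOrder Matrix
open Set MeasureTheory Complex Metric Filter

set_option linter.unusedVariables false

noncomputable section

namespace Pool.Agent.Lib.RAG

open Pool.Agent.Lib.SV (E nsq)
open Pool.Agent.Lib.HS32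
open Pool.Agent.Lib.RA (Pr Pk CGrow)

/-- A positive bundle with a family of sections of its powers. -/
structure Amp {n : ℕ} (M : Mf n) (G : M.Fam (Mat n)) (O : M.Co) (Ψ : M.Fam ℝ) (h : ℕ → M.Fam ℂ)
    (x : M.X) : Prop where
  kae : M.Kae G
  wt : M.WtC O Ψ
  cur : M.All fun e z => M.hw Ψ e z = G e z
  sec : ∀ N, M.HSecC (O.pw N) (h N)
  ne : ∀ N, M.ev (h N) x ≠ 0

/-- A section of a twist that does not vanish at a given point. -/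
def St_MSEC : Prop := ∀ (n : ℕ) (M : Mf n) [M.Cpt] (G : M.Fam (Mat n)) (L O : M.Co)
  (φ Ψ : M.Fam ℝ) (h : ℕ → M.Fam ℂ) (x : M.X), Amp M G O Ψ h x → M.WtC L φ →
  ∃ N s, M.HSecC (L.tn (O.pw N)) s ∧ M.ev s x ≠ 0

/-- The identity theorem for sections. -/
def St_IDC : Prop := ∀ (n : ℕ) (M : Mf n) [M.Cpt] (L : M.Co) (s : M.Fam ℂ) (x : M.X),
  M.HSecC L s → M.ev s x ≠ 0 → IsOpen {y | M.ev s y ≠ 0} ∧ Dense {y | M.ev s y ≠ 0} ∧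
    M.All fun e z => (M.ev s (e.symm z) ≠ 0 ↔ s e z ≠ 0) ∧ ∃ᶠ w in 𝓝 z, s e w ≠ 0

/-- The section times a cut-off function. -/
def St_SEC2 : Prop := ∀ (n r : ℕ) (M : Mf n) (T : M.Fam (Mat n)) (U : Set M.X) (H : M.X → E r)
  (s c : ℝ), Tub M T U H s c → ∃ C : ℝ, 0 ≤ C ∧ ∀ (L : M.Co) (Φ : M.Fam ℝ) (g : M.Fam ℂ)
    (q : M.X → ℝ), (∀ x, 0 ≤ q x) → SecU M L U g →
    (M.All fun e z => e.symm z ∈ U → ‖H (e.symm z)‖ ≤ s →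
      normSq (g e z) * Real.exp (-Φ e z) ≤ q (e.symm z)) →
    ∃ σ, M.SecC L σ ∧ (M.All fun e z => e.symm z ∈ U → ‖H (e.symm z)‖ < s / 4 → σ e z = g e z) ∧
      (M.All fun e z => normSq (σ e z) * Real.exp (-Φ e z) ≤ q (e.symm z)) ∧
      M.DbC Φ σ ({x | x ∈ U ∧ s / 4 ≤ ‖H x‖ ∧ ‖H x‖ ≤ s}.indicator fun x => C * q x) T

/-- Peak sections under an integral bound. -/
def St_GPK2 : Prop := ∀ (n r : ℕ) (M : Mf n) [M.Cpt] (G T : M.Fam (Mat n)) (U : Set M.X)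
  (H : M.X → E r) (s c : ℝ) (e : M.Ch) (x : M.X) (ρ : ℝ), M.Kae G → Tub M T U H s c → e ∈ M.C →
  x ∈ e.source → x ∈ U → H x = 0 → 0 < ρ → ∃ C : ℝ, ∀ B : ℝ, 0 ≤ B → ∃ A : ℝ, ∀ κ : ℝ, 0 < κ →
    ∀ (L : M.Co) (Φ : M.Fam ℝ) (g : M.Fam ℂ) (q : M.X → ℝ), M.WtC L Φ →
      M.Le (C • T) (M.hw Φ + M.ric G) → SecU M L U g → Continuous q → (∀ y, 0 ≤ q y) →
      ∫ y, q y ∂M.mu G ≤ B →
      (M.All fun e z => e.symm z ∈ U → ‖H (e.symm z)‖ ≤ s →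
        normSq (g e z) * Real.exp (-Φ e z) ≤ q (e.symm z)) →
      (∀ z ∈ ball (e x) ρ, z ∈ e.target → Φ e z ≤ B) →
      ∃ t, M.HSecC L t ∧ ∫ y, M.nrC Φ t y ∂M.mu G ≤ A ∧ ‖t e (e x) - g e (e x)‖ ≤ κ ∧
        ‖fderiv ℂ (t e) (e x) - fderiv ℂ (g e) (e x)‖ ≤ κ

/-- From an integral bound to a uniform bound. -/
def St_SUPB : Prop := ∀ (n : ℕ) (M : Mf n) [M.Cpt] (G : M.Fam (Mat n)) (L : M.Co) (Φ : M.Fam ℝ),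
  M.Met G → M.WtC L Φ → ∃ C : ℝ, ∀ (s : M.Fam ℂ) (A : ℝ), M.HSecC L s →
    ∫ y, M.nrC Φ s y ∂M.mu G ≤ A → ∀ x, M.nrC Φ s x ≤ C * A

/-- Limits of bounded families of sections, with derivatives and integrals. -/
def St_LIM2 : Prop := ∀ (n : ℕ) (M : Mf n) [M.Cpt] (G : M.Fam (Mat n)) (L : M.Co) (Φ : M.Fam ℝ)
  (κ : Type) (l : Ultrafilter κ) (s : κ → M.Fam ℂ) (B : ℝ), M.Met G → M.WtC L Φ →
  (∀ a, M.HSecC L (s a)) → (∀ a x, M.nrC Φ (s a) x ≤ B) →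
  ∃ t, M.HSecC L t ∧ (M.All fun e z => Tendsto (fun a => s a e z) l (𝓝 (t e z)) ∧
      Tendsto (fun a => fderiv ℂ (s a e) z) l (𝓝 (fderiv ℂ (t e) z))) ∧
    ∀ w : M.X → ℝ, Continuous w → Tendsto (fun a => ∫ y, M.nrC Φ (s a) y * w y ∂M.mu G) l
      (𝓝 (∫ y, M.nrC Φ t y * w y ∂M.mu G))

/-- Division by a section. -/
def St_DIV : Prop := ∀ (n m : ℕ) (M : Mf n) [M.Cpt] (G : M.Fam (Mat n)) (L O : M.Co)
  (Φ Ψ : M.Fam ℝ) (h t : M.Fam ℂ) (x : M.X) (A C : ℝ), 0 < m → 0 < C → M.Met G → M.WtC L Φ →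
  M.WtC O Ψ → M.HSecC O h → M.ev h x ≠ 0 → M.HSecC (L.tn O) t →
  (∀ δ ∈ Ioc (0 : ℝ) 1,
    ∫ y, M.nrC (Φ + Ψ) t y * (C * M.nrC Ψ h y ^ m + δ) ^ (-(m : ℝ)⁻¹) ∂M.mu G ≤ A) →
  ∃ t', M.HSecC L t' ∧ M.All fun e z => t e z = t' e z * h e z

/-- The family of weights. -/
def St_WGT : Prop := ∀ (n m : ℕ) (M : Mf n) [M.Cpt] (G : M.Fam (Mat n)) (L LB LE O : M.Co)
  (f g : M.Fam ℂ) (φ Ψ : M.Fam ℝ) (h : ℕ → M.Fam ℂ) (x : M.X), Amp M G O Ψ h x → M.WtC L φ →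
  Pr M L LB LE m f g → ∃ (N : ℕ) (B C : ℝ) (F : M.X → ℝ), 0 ≤ B ∧ 0 < C ∧ M.Sm F ∧
    (∀ y, 0 ≤ F y ∧ F y ≤ C ∧ F y ≤ C * M.nrC ((N : ℝ) • Ψ) (h N) y ^ m) ∧
    ∀ a : ℕ, ∃ Θ : M.Fam ℝ, M.WtC ((L.pw a).tn LE) Θ ∧ ∀ δ ∈ Ioc (0 : ℝ) 1,
      M.Le (((a : ℝ) - (m : ℝ)⁻¹) • M.hw φ) (M.hw (Θ + (N : ℝ) • Ψ +
        fun e z => (m : ℝ)⁻¹ * Real.log (F (e.symm z) + δ)) + M.ric G) ∧
      ∃ q : M.X → ℝ, Continuous q ∧ (∀ y, 0 ≤ q y) ∧ ∫ y, q y ∂M.mu G ≤ B ∧ M.All fun e z =>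
        normSq (g e z * h N e z) * Real.exp (a * φ e z - (Θ e z + N * Ψ e z +
          (m : ℝ)⁻¹ * Real.log (F (e.symm z) + δ))) ≤ q (e.symm z)

/-- One peak section. -/
def St_PK1 : Prop := ∀ (n r m : ℕ) (M : Mf n) [M.Cpt] (G : M.Fam (Mat n)) (L LB LE O : M.Co)
  (f g : M.Fam ℂ) (φ Ψ : M.Fam ℝ) (h : ℕ → M.Fam ℂ) (U : Set M.X) (H : M.X → E r) (s c : ℝ)
  (e : M.Ch) (x : M.X), Amp M G O Ψ h x → M.WtC L φ → Pr M L LB LE m f g →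
  Tub M (M.hw φ) U H s c → e ∈ M.C → x ∈ e.source → x ∈ U → H x = 0 →
  ∃ N a₀ : ℕ, ∀ a, a₀ ≤ a → ∀ σ, SecU M (L.pw a) U σ → ∀ κ : ℝ, 0 < κ →
    ∃ t, M.HSecC ((L.pw a).tn LE) t ∧
      ‖t e (e x) * h N e (e x) - σ e (e x) * (g e (e x) * h N e (e x))‖ ≤ κ ∧
      ‖fderiv ℂ (fun w => t e w * h N e w) (e x) -
        fderiv ℂ (fun w => σ e w * (g e w * h N e w)) (e x)‖ ≤ κ

/-- The base point can be moved into a dense set. -/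
def St_REC : Prop := ∀ (n r m : ℕ) (M : Mf n) (L : M.Co) (φ : M.Fam ℝ) (x : M.X) (U : Set M.X)
  (H : M.X → E r) (δ c : ℝ) (s : M.Fam ℂ) (D : Set M.X), Pk M L φ r x U H δ c m s → Dense D →
  ∃ y ∈ D, Pk M L φ r y U (fun w => H w - H y) (δ / 2) c m s

/-- Sections with independent quotients. -/
def St_MANY : Prop := ∀ (n r a : ℕ) (M : Mf n) (L : M.Co) (s₀ : M.Fam ℂ) (s : Fin r → M.Fam ℂ)
  (e : M.Ch) (z : E n), 0 < a → M.HSecC (L.pw a) s₀ → (∀ i, M.HSecC (L.pw a) (s i)) → e ∈ M.C →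
  z ∈ e.target → s₀ e z ≠ 0 →
  Function.Surjective (fderiv ℂ (fun w i => s i e w / s₀ e w) z) → CGrow M L r

end Pool.Agent.Lib.RAG
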