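import Pool.Agent.Lib.RYG.B_GPK
import Pool.Agent.Lib.RYG.BlueZ

/-! Project ra2: peak sections for a section with an integrable bound. -/

open scoped Classical Topology ContDiff ComplexOrder Matrix ENNReal
open Set MeasureTheory Complex Metric Filter

set_option linter.unusedVariables false

noncomputable section

namespace Pool.Agent.Lib.RAG

open Pool.Agent.Lib.SV (E nsq)
open Pool.Agent.Lib.HS32
open Pool.Agent.Lib.HS.P55 (nq_mono nsq_le low)

open GPK in
theorem gpk45 (hCUT : St_CUT) (hSEC : St_SEC) (hHOR : KP.St_HOR) (n r : ℕ) (M : Mf n) [M.Cpt]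
    (G T : M.Fam (Mat n)) (U : Set M.X) (H : M.X → E r) (s c : ℝ) (e : M.Ch) (x : M.X) (ρ : ℝ)
    (hK : M.Kae G) (hT : Tub M T U H s c) (he : e ∈ M.C) (hx : x ∈ e.source) (hxU : x ∈ U)
    (hH0 : H x = 0) (hρ : 0 < ρ) : ∃ C : ℝ, ∀ B : ℝ, 0 ≤ B → ∃ A : ℝ, ∀ κ : ℝ, 0 < κ →
    ∀ (L : M.Co) (Φ : M.Fam ℝ) (g : M.Fam ℂ) (q : M.X → ℝ), M.WtC L Φ →
      M.Le (C • T) (M.hw Φ + M.ric G) → SecU M L U g → Continuous q → (∀ y, 0 ≤ q y) →
      ∫ y, q y ∂M.mu G ≤ B →
      (M.All fun e z => e.symm z ∈ U → ‖H (e.symm z)‖ ≤ s →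
        normSq (g e z) * Real.exp (-Φ e z) ≤ q (e.symm z)) →
      (∀ z ∈ ball (e x) ρ, z ∈ e.target → Φ e z ≤ B) →
      ∃ t, M.HSecC L t ∧ ∫ y, M.nrC Φ t y ∂M.mu G ≤ A ∧ ‖t e (e x) - g e (e x)‖ ≤ κ ∧
        ‖fderiv ℂ (t e) (e x) - fderiv ℂ (g e) (e x)‖ ≤ κ := by
  obtain ⟨C₁, c1, hl⟩ := hCUT n r M T U H s c hT
  obtain ⟨C₂, c2, hσ⟩ := hSEC n r M T U H s c hT
  have hz := e.map_source hx
  have d0 : DifferentiableAt ℂ (H ∘ e.symm) (e x) := hT.hol e he _ hz (by rwa [e.left_inv hx])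
  have v0 : (H ∘ e.symm) (e x) = 0 := by rw [Function.comp_apply, e.left_inv hx, hH0]
  obtain ⟨Λ, Λ0, hΛ⟩ := d0.isBigO_sub.exists_pos
  have ev : ∀ᶠ z in 𝓝 (e x), z ∈ e.target ∧ z ∈ ball (e x) ρ ∧ e.symm z ∈ U ∧
      ‖H (e.symm z)‖ < s / 4 ∧ ‖H (e.symm z)‖ ≤ Λ * ‖z - e x‖ := by
    have a : ContinuousAt e.symm (e x) := e.continuousAt_symm hz
    have b := d0.continuousAt.norm.eventually_lt (continuousAt_const (y := s / 4))
      (by rw [v0, norm_zero]; linarith [hT.s0])
    filter_upwards [e.open_target.mem_nhds hz, ball_mem_nhds _ hρ,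
      a.eventually_mem (hT.opn.mem_nhds (by rwa [e.left_inv hx])), b, hΛ.bound] with z h1 h2 h3 h4 h5
    rw [v0, sub_zero] at h5
    exact ⟨h1, h2, h3, h4, h5⟩
  obtain ⟨R, R0, hR⟩ := nhds_basis_closedBall.eventually_iff.1 ev
  obtain ⟨D, hD, hD'⟩ := (mBD n M G hK.toMet).2.2.1 e he _ (isCompact_closedBall (e x) R)
    fun z hz => (hR hz).1
  obtain ⟨-, hfin, -, -, hint, hch, -⟩ := mMU n M G hK.toMet
  set K : Set M.X := {y | y ∈ U ∧ s / 4 ≤ ‖H y‖ ∧ ‖H y‖ ≤ s} with hKd
  have hKm : MeasurableSet K := by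
    have a : IsOpen {y | y ∈ U ∧ ‖H y‖ < s / 4} := isOpen_iff_mem_nhds.2 fun y hy => by
      have b := (hT.hol _ (Mf.ch_mem y) _ (Mf.ch_tgt y) (by rw [Mf.ch_symm]; exact hy.1)).continuousAt
      have d : ContinuousAt H y := by
        refine (b.comp ((M.ch y).continuousAt (Mf.mem_ch y))).congr ?_
        filter_upwards [(M.ch y).open_source.mem_nhds (Mf.mem_ch y)] with w hw
        simp only [Function.comp_apply, (M.ch y).left_inv hw]
      filter_upwards [hT.opn.mem_nhds hy.1, d.norm.eventually_lt continuousAt_const hy.2]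
        with w h1 h2 using ⟨h1, h2⟩
    have b : K = {y | y ∈ U ∧ ‖H y‖ ≤ s} \ {y | y ∈ U ∧ ‖H y‖ < s / 4} := by
      ext y
      simp only [hKd, mem_ofPred_eq, Set.mem_sdiff, not_and, not_lt]
      tauto
    rw [b]
    exact hT.cl.measurableSet.diff a.measurableSet
  set N : ℝ := ((n + 2 : ℕ) : ℝ) with hN
  have N0 : 0 ≤ N := Nat.cast_nonneg _
  refine ⟨N * C₁ + 1, fun B B0 => ?_⟩
  set μ := (M.mu G).real univ with hμ
  have μ0 : 0 ≤ μ := measureReal_nonneg
  set B' := C₂ * Real.exp (N * C₁) with hB'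
  have B'0 : 0 ≤ B' := by positivity
  refine ⟨2 * (B + μ) + 2 * (Real.exp (N * C₁) * (B' * (B + μ))),
    fun κ κ0 L Φ g q hΦ hle hg qc q0 qi hb hu => ?_⟩
  have qp : ∀ y, 0 < q y + 1 := fun y => by linarith [q0 y]
  have q1 : Continuous fun y => q y + 1 := qc.add continuous_const
  have q2 : ∫ y, (q y + 1) ∂M.mu G ≤ B + μ := by
    rw [integral_add (hint _ _ qc) (integrable_const _), integral_const, smul_eq_mul, mul_one]
    exact add_le_add qi le_rfl
  have q3 : ∀ (a b : ℝ) y, a * Real.exp (-(b + Real.log (q y + 1))) =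
      a * Real.exp (-b) / (q y + 1) := fun a b y => by
    rw [neg_add, Real.exp_add, Real.exp_neg (Real.log _), Real.exp_log (qp y)]
    ring
  obtain ⟨Bq, hBq⟩ := isCompact_univ.exists_bound_of_continuousOn q1.continuousOn
  set Q : ℝ := r * (2 * Λ) ^ 2 + 1 with hQ
  have Q0 : 0 < Q := by positivity
  set k := D⁻¹ * Real.exp (-B) / Q ^ (n + 2) with hk
  have k0 : 0 < k := by positivity
  set S := √(B' * (B + μ) / (k * (volume (ball (0 : E n) 1)).toReal)) with hS
  have S0 : 0 ≤ S := Real.sqrt_nonneg _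
  obtain ⟨t, t0, t1, t2, t3⟩ : ∃ t : ℝ, 0 < t ∧ t ≤ 1 ∧ 2 * t ≤ R ∧ 2 * S * t ≤ κ := by
    refine ⟨min (min 1 (R / 2)) (κ / (2 * S + 1)), by positivity,
      (min_le_left _ _).trans (min_le_left _ _), ?_, ?_⟩
    · linarith [(min_le_left _ (κ / (2 * S + 1))).trans (min_le_right 1 (R / 2))]
    · have a := (le_div_iff₀ (by positivity : 0 < 2 * S + 1)).1
        (min_le_right (min 1 (R / 2)) (κ / (2 * S + 1)))
      have b : 0 < min (min 1 (R / 2)) (κ / (2 * S + 1)) := by positivity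
      linarith
  obtain ⟨l, l1, l2, l3, l4, l5⟩ := hl (t ^ 2) ⟨by positivity, pow_le_one₀ t0.le t1⟩
  obtain ⟨σ, s1, s2, s3, s4⟩ := hσ L (fun e z => Φ e z + Real.log (q (e.symm z) + 1)) g 1
    zero_le_one hg fun e he z hz a b => by
      rw [q3, div_le_one (qp _)]
      linarith [hb e he z hz a b]
  obtain ⟨w1, w2⟩ := hΦ.addF (l1.const_mul N)
  set Ψ : M.Fam ℝ := Φ + fun e z => N * l (e.symm z) with hΨ
  have hΨe : ∀ e z, Real.exp (-Ψ e z) = Real.exp (-Φ e z) * Real.exp (-(N * l (e.symm z))) :=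
    fun e z => by rw [← Real.exp_add, hΨ, ← neg_add]; rfl
  have hw : M.Le T (M.hw Ψ + M.ric G) := fun e he z hz => by
    have e1 := w2 e he z hz
    have e3 := hs_mul l1 N e he z hz
    beta_reduce at e1 e3
    have := (hle e he z hz).add (Mf.psd_rsmul (l2 e he z hz) N0)
    refine (congrArg Matrix.PosSemidef ?_).mp this
    rw [e3] at e1
    simp only [Pi.add_apply, Pi.smul_apply, Pi.zero_apply, e1]
    module
  have hbb : ∀ y, 0 ≤ K.indicator (fun y => B' * (q y + 1)) y ∧
      K.indicator (fun y => B' * (q y + 1)) y ≤ B' * (q y + 1) := fun y => by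
    have := mul_nonneg B'0 (qp y).le
    by_cases hy : y ∈ K
    · rw [indicator_of_mem hy]; exact ⟨this, le_rfl⟩
    · rw [indicator_of_notMem hy]; exact ⟨le_rfl, this⟩
  obtain ⟨u, u1, hi⟩ := hHOR n M G L Ψ _ σ (B' * Bq) hK w1 s1 (hT.psd.trans hw)
    ((q1.const_mul B').measurable.indicator hKm) (fun y => ⟨(hbb y).1, (hbb y).2.trans
      (mul_le_mul_of_nonneg_left (le_of_abs_le (hBq y trivial)) B'0)⟩) fun e he z hz v => by
      have a := s4 e he z hz v
      beta_reduce at a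
      rw [q3, div_le_iff₀ (qp _)] at a
      have b := nq_mono (hw e he z hz) v
      have c := nq_nonneg (T := T e z) (by simpa using hT.psd e he z hz) v
      rw [hΨe, ← mul_assoc]
      refine (mul_le_mul_of_nonneg_right a (Real.exp_pos _).le).trans ?_
      by_cases hy : e.symm z ∈ K
      · simp only [indicator_of_mem hy]
        have f : Real.exp (-(N * l (e.symm z))) ≤ Real.exp (N * C₁) := by
          refine Real.exp_le_exp.2 ?_
          linarith [mul_le_mul_of_nonneg_left (l5 _ hy.1 hy.2.1) N0]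
        have p := qp (e.symm z)
        calc _ = C₂ * Real.exp (-(N * l (e.symm z))) * (q (e.symm z) + 1) * nq (T e z) v := by ring
          _ ≤ _ := mul_le_mul (mul_le_mul_of_nonneg_right (mul_le_mul_of_nonneg_left f c2) p.le)
            b c (by positivity)
      · simp only [indicator_of_notMem hy, zero_mul, le_refl]
  have hss := s1.sub u1.toSecC
  have hrep := w1.nr_rep hss
  have hcont := (w1.nr_sm hss).continuous
  have hup : ∫ y, M.nrC Ψ (σ - u) y ∂M.mu G ≤ B' * (B + μ) := by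
    refine hi.trans ((integral_mono_of_nonneg (Eventually.of_forall fun y => (hbb y).1)
      (hint _ _ (q1.const_mul B')) (Eventually.of_forall fun y => (hbb y).2)).trans ?_)
    rw [integral_const_mul]
    exact mul_le_mul_of_nonneg_left q2 B'0
  have hsub : ball (e x) (2 * t) ⊆ closedBall (e x) R :=
    ball_subset_closedBall.trans (closedBall_subset_closedBall t2)
  have hgd : ∀ z ∈ closedBall (e x) R, DifferentiableAt ℂ (g e) z := fun z hz =>
    hg.hol e he z (hR hz).1 (hR hz).2.2.1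
  have hud : ∀ z ∈ closedBall (e x) R, DifferentiableAt ℂ (u e) z := fun z hz =>
    u1.hol e he z (hR hz).1
  obtain ⟨j1, j2⟩ := jet (f := fun z => g e z - u e z) (A := B' * (B + μ)) t0 k0 (by positivity)
    (fun z hz => ((hgd z (hsub hz)).sub (hud z (hsub hz))).differentiableWithinAt)
    (g := fun z => ENNReal.ofReal (G e z).det.re * ENNReal.ofReal (M.nrC Ψ (σ - u) (e.symm z)))
    (fun z hz => by
      obtain ⟨-, -, d1, -⟩ := hD' z (hsub hz)
      obtain ⟨a1, a2, a3, a4, a5⟩ := hR (hsub hz)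
      have d0 : 0 < (G e z).det.re := lt_of_lt_of_le (by positivity) d1
      rw [← ENNReal.ofReal_mul d0.le, hrep e he z a1]
      refine ENNReal.ofReal_le_ofReal ?_
      have e1 : l (e.symm z) ≤ Real.log (Q * t ^ 2) := by
        rw [l4 _ a3 a4]
        have b0 := SV.nsq_nonneg (H (e.symm z))
        refine Real.log_le_log (by positivity) ?_
        have b1 : ‖H (e.symm z)‖ < 2 * Λ * t := by
          have := mul_lt_mul_of_pos_left (mem_ball_iff_norm.1 hz) Λ0
          linarith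
        have := nsq_le b1
        rw [hQ]
        linarith
      have e2 : Real.exp (-B) / (Q * t ^ 2) ^ (n + 2) ≤ Real.exp (-Ψ e z) := by
        rw [← Real.exp_log (x := Q * t ^ 2) (by positivity), ← Real.exp_nat_mul, ← Real.exp_sub]
        refine Real.exp_le_exp.2 ?_
        have := hu z a2 a1
        have e0 : Ψ e z = Φ e z + N * l (e.symm z) := rfl
        rw [e0, ← hN]
        linarith [mul_le_mul_of_nonneg_left e1 N0]
      have e3 : (σ - u) e z = g e z - u e z := by rw [← s2 e he z a1 a3 a4]; rfl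
      beta_reduce
      rw [e3]
      calc _ = D⁻¹ * (normSq (g e z - u e z) * (Real.exp (-B) / (Q * t ^ 2) ^ (n + 2))) := by
            rw [hk, mul_pow, ← pow_mul]
            field_simp
        _ ≤ _ := by
            have := normSq_nonneg (g e z - u e z)
            gcongr)
    (by
      have hG : ∀ y, 0 ≤ M.nrC Ψ (σ - u) y := fun y => Mf.nrC_nonneg _ _ y
      rw [← ((hch e he _ measurableSet_ball fun z hz => (hR (hsub hz)).1).2.1 fun y =>
        ENNReal.ofReal (M.nrC Ψ (σ - u) y))]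
      refine (setLIntegral_le_lintegral _ _).trans ?_
      exact (ofReal_integral_eq_lintegral_ofReal (hint _ _ hcont)
        (Eventually.of_forall hG)).ge.trans (ENNReal.ofReal_le_ofReal hup))
  have hc := mem_closedBall_self (x := e x) R0.le
  refine ⟨u, u1, ?_, ?_, ?_⟩
  · have p : ∀ y, M.nrC Φ u y ≤
        2 * (q y + 1) + 2 * (Real.exp (N * C₁) * M.nrC Ψ (σ - u) y) := fun y => by
      have a := Mf.AllOn.ch s3 y
      rw [q3, div_le_one (qp _), Mf.ch_symm] at a
      have b := nsq_add (M.ev σ y) (M.ev (σ - u) y)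
      have c : M.ev σ y - M.ev (σ - u) y = M.ev u y := sub_sub_cancel _ _
      have d : M.nrC Ψ (σ - u) y = normSq (M.ev (σ - u) y) * (Real.exp (-M.ev Φ y) *
          Real.exp (-(N * l y))) := by
        rw [Mf.nrC, Mf.ev, Mf.ev, hΨe, Mf.ch_symm]; rfl
      have f : 1 ≤ Real.exp (N * C₁) * Real.exp (-(N * l y)) := by
        rw [← Real.exp_add]
        exact Real.one_le_exp (by linarith [mul_le_mul_of_nonneg_left (l3 y) N0])
      have p0 := Real.exp_pos (-M.ev Φ y)
      have p1 := mul_nonneg (normSq_nonneg (M.ev (σ - u) y)) p0.le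
      change normSq (M.ev σ y) * Real.exp (-M.ev Φ y) ≤ q y + 1 at a
      rw [c] at b
      rw [d, Mf.nrC]
      linarith [mul_le_mul_of_nonneg_right b p0.le, mul_le_mul_of_nonneg_left f p1]
    have i1 := hint _ _ hcont
    refine (integral_mono (hint _ _ (hΦ.nr_sm u1.toSecC).continuous)
      (((hint _ _ q1).const_mul _).add ((i1.const_mul _).const_mul _)) p).trans ?_
    simp only [Pi.add_apply]
    rw [integral_add ((hint _ _ q1).const_mul _) ((i1.const_mul _).const_mul _),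
      integral_const_mul, integral_const_mul, integral_const_mul]
    have := mul_le_mul_of_nonneg_left hup (Real.exp_pos (N * C₁)).le
    linarith
  · rw [norm_sub_rev]
    refine j1.trans ?_
    have : S * t * t ≤ S * t := mul_le_of_le_one_right (by positivity) t1
    linarith [mul_nonneg S0 t0.le]
  · rw [norm_sub_rev, ← fderiv_fun_sub (hgd _ hc) (hud _ hc)]
    exact j2.trans t3

theorem st_GPK2 (hCUT : St_CUT) (hSEC : St_SEC) (hHOR : KP.St_HOR) : St_GPK2 :=
  gpk45 hCUT hSEC hHOR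

end Pool.Agent.Lib.RAG
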