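import Pool.Agent.Lib.RYG.BlueZ

/-! Project ra2: a section of a twist that does not vanish at a given point. -/

open scoped Classical Topology ContDiff ComplexOrder Matrix
open Set MeasureTheory Complex Metric Filter

set_option linter.unusedVariables false

noncomputable section

namespace Pool.Agent.Lib.RAG

open Pool.Agent.Lib.SV (E nsq)
open Pool.Agent.Lib.HS32

/-- The frame of a chart. -/
theorem secU_frame {n : ℕ} {M : Mf n} (L : M.Co) {e : M.Ch} (he : e ∈ M.C) {U : Set M.X}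
    (hU : U ⊆ e.source) : SecU M L U fun e' z => L.c e e' (e'.symm z) :=
  ⟨fun e' he' z hz h => by
    have := (L.hol e he e' he' _ (hU h) (e'.map_target hz)).self_of_nhds
    rwa [e'.right_inv hz] at this, fun a ha b hb y hy hy' h => by
    simp only [a.left_inv hy, b.left_inv hy']
    exact L.mul e he a ha y (hU h) hy b hb hy'⟩

theorem st_MSEC (hGPK : St_GPK) (hTBL : St_TBL) (hBDU : St_BDU) : St_MSEC := by
  intro n M _ G L O φ Ψ h x hA hφ
  have hG := hA.kae.toMet
  have he := Mf.ch_mem x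
  have hx := Mf.mem_ch x
  set e := M.ch x with hE
  obtain ⟨U, s, c, hU, -, hUe, hK, hT⟩ := hTBL n M G e x univ hG.toForm hG.nonneg he hx
    (hG.pos.at he hx) univ_mem
  obtain ⟨ρ, ρ0, hρ⟩ := nhds_basis_closedBall.mem_iff.1 (e.open_target.mem_nhds (e.map_source hx))
  obtain ⟨C, hC⟩ := hGPK n n M G G U _ s c e x ρ hA.kae hT he hx hU (sub_self _) ρ0
  obtain ⟨w1, w2⟩ := hφ.tw hG 1
  obtain ⟨C₁, -, -, h1⟩ := (mBD n M G hG).1 _ hφ.clo.toForm
  obtain ⟨C₂, -, -, h2⟩ := (mBD n M G hG).1 _ (hφ.clo.toForm.sub w1.clo.toForm)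
  obtain ⟨N, hN⟩ := exists_nat_ge (C + C₁ + C₂)
  obtain ⟨p1, p2⟩ := hA.wt.pw N
  obtain ⟨t1, t2⟩ := hφ.tn p1
  have hg := secU_frame (L.tn (O.pw N)) he hUe
  obtain ⟨B, B0, hB⟩ := hBDU.1 n M _ _ U _ _ t1 hT.opn hg hK fun y hy => hy.1
  obtain ⟨D, hD⟩ := (isCompact_closedBall (e x) ρ).exists_bound_of_continuousOn
    (f := (φ + (N : ℝ) • Ψ) e) fun z hz => (t1.sm e he z (hρ hz)).continuousAt.continuousWithinAt
  obtain ⟨A, hA'⟩ := hC (max B D) (B0.trans (le_max_left _ _))
  obtain ⟨t, ht, -, h3, -⟩ := hA' (1 / 2) (by norm_num) _ _ _ t1 (fun a ha z hz => by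
      have e1 := t2 a ha z hz
      have e2 := p2 a ha z hz
      have e3 := w2 a ha z hz
      have e4 := hA.cur a ha z hz
      beta_reduce at e1 e2 e3 e4
      have := ((h1 a ha z hz).add (h2 a ha z hz)).add
        (Mf.psd_rsmul (hG.pos a ha z hz).posSemidef (sub_nonneg.2 hN))
      refine (congrArg Matrix.PosSemidef ?_).mp this
      simp only [Pi.add_apply, Pi.smul_apply, Pi.sub_apply, Pi.neg_apply, e1, e2, e3, e4]
      module) hg
    (fun a ha z hz y1 y2 => (hB a ha z hz ⟨y1, y2⟩).trans (le_max_left _ _))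
    fun z hz _ => (le_of_abs_le (hD z (ball_subset_closedBall hz))).trans (le_max_right _ _)
  refine ⟨N, t, ht, fun h0 => ?_⟩
  change t e (e x) = 0 at h0
  rw [h0, e.left_inv hx, Mf.Co.self _ he hx] at h3
  norm_num at h3

end Pool.Agent.Lib.RAG
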