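import Pool.Agent.Lib.RYG.Blue
import Pool.Agent.Lib.RY.B_CH2

/-! Project ra2: the section times a cut-off function. -/

open scoped Classical Topology ContDiff ComplexOrder Matrix
open Set MeasureTheory Complex Metric Filter

set_option linter.unusedVariables false

noncomputable section

namespace Pool.Agent.Lib.RAG

open Pool.Agent.Lib.SV (E nsq)
open Pool.Agent.Lib.HS32

namespace SEC

variable {n r : ℕ}

theorem sum_dzb (f : E n → ℂ) (z v : E n) : ∑ i, star (v i) * dzb i f z =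
    (fderiv ℝ f z v + I * fderiv ℝ f z (I • v)) / 2 := by
  rw [fderiv_eq_sum, fderiv_eq_sum, Finset.mul_sum, ← Finset.sum_add_distrib, Finset.sum_div]
  refine Finset.sum_congr rfl fun i _ => ?_
  have hI : star I = -I := conj_I
  rw [Pi.smul_apply, smul_eq_mul, star_mul', hI]
  linear_combination (-(dz i f z * v i - dzb i f z * star (v i)) / 2) * I_mul_I

theorem bd_comp {u : E r → ℂ} {h : E n → E r} {z : E n} {D : ℝ} (hh : DifferentiableAt ℂ h z)
    (hu : DifferentiableAt ℝ u (h z)) (hD : ‖fderiv ℝ u (h z)‖ ≤ D) (v : E n) :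
    ‖∑ i, star (v i) * dzb i (fun w => u (h w)) z‖ ≤ D * ‖fderiv ℂ h z v‖ := by
  have e : ∀ w, fderiv ℝ (fun w => u (h w)) z w = fderiv ℝ u (h z) (fderiv ℂ h z w) := by
    intro w
    have := fderiv_comp z hu (hh.restrictScalars ℝ)
    rw [hh.fderiv_restrictScalars ℝ] at this
    exact congrArg (fun A : E n →L[ℝ] ℂ => A w) this
  have b : ∀ w, ‖fderiv ℝ u (h z) w‖ ≤ D * ‖w‖ := fun w =>
    ((fderiv ℝ u (h z)).le_opNorm w).trans (mul_le_mul_of_nonneg_right hD (norm_nonneg _))
  rw [sum_dzb, e, e, norm_div, map_smul]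
  have b1 := b (fderiv ℂ h z v)
  have b2 := b (I • fderiv ℂ h z v)
  rw [norm_smul, norm_I, one_mul] at b2
  have b3 := norm_add_le (fderiv ℝ u (h z) (fderiv ℂ h z v))
    (I * fderiv ℝ u (h z) (I • fderiv ℂ h z v))
  rw [norm_mul, norm_I, one_mul] at b3
  rw [Complex.norm_two]
  linarith

theorem bump (r : ℕ) {s : ℝ} (hs : 0 < s) : ∃ (u : E r → ℂ) (D : ℝ), ContDiff ℝ ∞ u ∧
    (∀ t, ‖fderiv ℝ u t‖ ≤ D) ∧ (∀ t, ‖t‖ < s / 4 → u t = 1) ∧ (∀ t, s < ‖t‖ → u t = 0) ∧
    ∀ t, normSq (u t) ≤ 1 := by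
  let χ : ContDiffBump (0 : E r) := ⟨s / 4, s / 2, by linarith, by linarith⟩
  have c : ContDiff ℝ ∞ fun t => (χ t : ℂ) := ofRealCLM.contDiff.comp χ.contDiff
  have k : HasCompactSupport fun t => (χ t : ℂ) :=
    χ.hasCompactSupport.comp_left (g := fun a : ℝ => (a : ℂ)) ofReal_zero
  obtain ⟨D, hD⟩ := (c.continuous_fderiv (by simp)).bounded_above_of_compact_support (k.fderiv ℝ)
  refine ⟨_, D, c, hD, fun t ht => ?_, fun t ht => ?_, fun t => ?_⟩
  · rw [χ.one_of_mem_closedBall (mem_closedBall_zero_iff.2 ht.le), ofReal_one]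
  · rw [χ.zero_of_le_dist (by rw [dist_zero_right]; change s / 2 ≤ _; linarith), ofReal_zero]
  · rw [normSq_ofReal]
    exact mul_le_one₀ χ.le_one χ.nonneg χ.le_one

end SEC

open SEC in
theorem st_SEC : St_SEC := by
  intro n r M T U H s c hT
  obtain ⟨u, D, hu, hD, u1, u0, ub⟩ := bump r hT.s0
  have c0 := hT.c0
  refine ⟨D ^ 2 / c, by positivity, fun L Φ g B hB hg hb => ?_⟩
  let σ : M.Fam ℂ := fun e z => if e.symm z ∈ U then u (H (e.symm z)) * g e z else 0
  have ct : ∀ e : M.Ch, ∀ z ∈ e.target, ContinuousAt e.symm z := fun e z hz =>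
    e.continuousAt_symm hz
  have evU : M.All fun e z => e.symm z ∈ U → ∀ᶠ w in 𝓝 z, w ∈ e.target ∧ e.symm w ∈ U :=
    fun e he z hz h => (e.open_target.eventually_mem hz).and
      ((ct e z hz).eventually (hT.opn.mem_nhds h))
  have hH : M.All fun e z => e.symm z ∈ U → HolN (H ∘ e.symm) z := fun e he z hz h =>
    (evU e he z hz h).mono fun w hw => hT.hol e he w hw.1 hw.2
  have hG : M.All fun e z => e.symm z ∈ U → HolN (g e) z := fun e he z hz h =>
    (evU e he z hz h).mono fun w hw => hg.hol e he w hw.1 hw.2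
  have eA : M.All fun e z => e.symm z ∈ U → σ e =ᶠ[𝓝 z] fun w => u ((H ∘ e.symm) w) * g e w :=
    fun e he z hz h => (evU e he z hz h).mono fun w hw => if_pos hw.2
  have z0 : ∀ (e : M.Ch) z, ¬(e.symm z ∈ U ∧ ‖H (e.symm z)‖ ≤ s) → σ e z = 0 := by
    intro e z h
    by_cases hU : e.symm z ∈ U
    · have : u (H (e.symm z)) = 0 := u0 _ (not_le.1 fun h' => h ⟨hU, h'⟩)
      simp only [σ, if_pos hU, this, zero_mul]
    · exact if_neg hU
  have eB : M.All fun e z => ¬(e.symm z ∈ U ∧ ‖H (e.symm z)‖ ≤ s) → σ e =ᶠ[𝓝 z] fun _ => 0 :=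
    fun e he z hz h => ((ct e z hz).eventually (hT.cl.isOpen_compl.mem_nhds h)).mono
      fun w hw => z0 e w hw
  have eC : ∀ (e : M.Ch) z, e.symm z ∈ U → ‖H (e.symm z)‖ < s / 4 → σ e z = g e z := by
    intro e z hU h
    simp only [σ, if_pos hU, u1 _ h, one_mul]
  refine ⟨σ, ⟨fun e he z hz => ?_, fun e he e' he' x hx hx' => ?_⟩, fun e he z hz => eC e z,
    fun e he z hz => ?_, fun e he z hz v => ?_⟩
  · by_cases hU : e.symm z ∈ U
    · exact ((hu.contDiffAt.comp z (RA.BCH2.cd (hH e he z hz hU))).mul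
        ((mHOL n _ z).2.2 (hG e he z hz hU)).1).congr_of_eventuallyEq (eA e he z hz hU)
    · exact contDiffAt_const.congr_of_eventuallyEq (eB e he z hz fun h => hU h.1)
  · by_cases hU : x ∈ U
    · simp only [σ, e.left_inv hx, e'.left_inv hx', if_pos hU, hg.cmp e he e' he' x hx hx' hU,
        mul_assoc]
    · simp only [σ, e.left_inv hx, e'.left_inv hx', if_neg hU, zero_mul]
  · beta_reduce
    by_cases h : e.symm z ∈ U ∧ ‖H (e.symm z)‖ ≤ s
    · have e1 : σ e z = u (H (e.symm z)) * g e z := if_pos h.1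
      rw [e1, normSq_mul, mul_assoc]
      exact (mul_le_of_le_one_left (mul_nonneg (normSq_nonneg _) (Real.exp_pos _).le)
        (ub _)).trans (hb e he z hz h.1 h.2)
    · rw [z0 e z h, normSq_zero, zero_mul]
      exact hB
  · by_cases h : e.symm z ∈ U ∧ ‖H (e.symm z)‖ ≤ s
    · have hh := (hH e he z hz h.1).self_of_nhds
      have gg := (hG e he z hz h.1).self_of_nhds
      have gz : ∀ i, dzb i (g e) z = 0 := ((mHOL n _ z).1 (gg.restrictScalars ℝ)).1 gg
      by_cases h4 : s / 4 ≤ ‖H (e.symm z)‖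
      · have du : DifferentiableAt ℝ u ((H ∘ e.symm) z) := cd_diff hu.contDiffAt
        have e1 : ∑ i, star (v i) * dzb i (σ e) z =
            (∑ i, star (v i) * dzb i (fun w => u ((H ∘ e.symm) w)) z) * g e z := by
          rw [Finset.sum_mul]
          refine Finset.sum_congr rfl fun i _ => ?_
          have d2 : DifferentiableAt ℝ (fun w => u ((H ∘ e.symm) w)) z :=
            du.comp z (hh.restrictScalars ℝ)
          rw [dzb_congr (eA e he z hz h.1), dzb_mul d2 (gg.restrictScalars ℝ), gz, mul_zero,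
            add_zero, mul_assoc]
        have b1 := bd_comp hh du (hD _) v
        have b2 := hT.low e he z hz h.1 h.2 v
        have b3 := hb e he z hz h.1 h.2
        have b4 : normSq (∑ i, star (v i) * dzb i (fun w => u ((H ∘ e.symm) w)) z) ≤
            D ^ 2 / c * nq (T e z) v := by
          rw [normSq_eq_norm_sq]
          refine (pow_le_pow_left₀ (norm_nonneg _) b1 2).trans ?_
          rw [mul_pow, div_mul_eq_mul_div, le_div_iff₀ c0]
          nlinarith [mul_le_mul_of_nonneg_left b2 (sq_nonneg D)]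
        rw [indicator_of_mem (show e.symm z ∈ {x | x ∈ U ∧ s / 4 ≤ ‖H x‖ ∧ ‖H x‖ ≤ s} from
          ⟨h.1, h4, h.2⟩), e1, normSq_mul, mul_assoc, mul_right_comm]
        exact mul_le_mul b4 b3 (mul_nonneg (normSq_nonneg _) (Real.exp_pos _).le)
          ((normSq_nonneg _).trans b4)
      · have e1 : σ e =ᶠ[𝓝 z] g e := by
          filter_upwards [evU e he z hz h.1,
            hh.continuousAt.norm.eventually_lt continuousAt_const (not_le.1 h4)] with w h1 h2
          exact eC e w h1.2 h2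
        rw [indicator_of_notMem (fun h' => h4 h'.2.1)]
        simp only [dzb_congr e1, gz, mul_zero, Finset.sum_const_zero, normSq_zero, zero_mul,
          le_refl]
    · rw [indicator_of_notMem (fun h' => h ⟨h'.1, h'.2.2⟩)]
      simp only [dzb_congr (eB e he z hz h), dzb_const, mul_zero, Finset.sum_const_zero,
        normSq_zero, zero_mul, le_refl]

end Pool.Agent.Lib.RAG
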