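import Pool.Agent.Lib.RYG.B_GPK

/-! Project ra2: coercivity for a positive line bundle. -/

open scoped Classical Topology ContDiff ComplexOrder Matrix ENNReal
open Set MeasureTheory Complex Metric Filter

set_option linter.unusedVariables false

noncomputable section

namespace Pool.Agent.Lib.RAG

open Pool.Agent.Lib.SV (E nsq)
open Pool.Agent.Lib.HS32

namespace CO0

variable {n k : ℕ} {M : Mf n} {G : M.Fam (Mat n)}

/-- Smooth with Hessian at least `-a G`. -/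
def QP (G : M.Fam (Mat n)) (a : ℝ) (f : M.X → ℝ) : Prop := M.Sm f ∧ M.Le 0 (a • G + M.hs f)

theorem QP.add {a b : ℝ} {f g : M.X → ℝ} (h : QP G a f) (h' : QP G b g) :
    QP G (a + b) fun x => f x + g x := ⟨h.1.add h'.1, fun e he z hz => by
  have e1 := (((mLAP n M f g h.1 h'.1).1 0) e he z hz).2.1
  refine (congrArg Matrix.PosSemidef ?_).mp ((h.2 e he z hz).add (h'.2 e he z hz))
  simp only [Pi.add_apply, Pi.smul_apply, Pi.zero_apply, e1]
  module⟩

theorem QP.mul {a c : ℝ} {f : M.X → ℝ} (h : QP G a f) (hc : 0 ≤ c) :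
    QP G (c * a) fun x => c * f x := ⟨h.1.const_mul c, fun e he z hz => by
  have e1 := GPK.hs_mul h.1 c e he z hz
  beta_reduce at e1
  refine (congrArg Matrix.PosSemidef ?_).mp (Mf.psd_rsmul (h.2 e he z hz) hc)
  simp only [Pi.add_apply, Pi.smul_apply, Pi.zero_apply, e1]
  module⟩

theorem QP.sum {ι : Type} {a : ℝ} {f : ι → M.X → ℝ} (h : ∀ i, QP G a (f i)) (s : Finset ι) :
    QP G (s.card * a) fun x => ∑ i ∈ s, f i x := by
  induction s using Finset.induction_on with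
  | empty => simpa using (show QP G 0 fun _ => 0 from ⟨Mf.sm_const 0, fun e he z hz => by
      have e1 := (((mLAP n M _ _ (Mf.sm_const 0) (Mf.sm_const 0)).1 0) e he z hz).1
      simpa only [Pi.add_apply, Pi.zero_apply, e1, zero_smul, add_zero, sub_zero] using
        Matrix.PosSemidef.zero⟩)
  | insert i s hi ih =>
    simp only [Finset.sum_insert hi, Finset.card_insert_of_notMem hi]
    convert (h i).add ih using 1
    push_cast
    ring

/-- Uniform local estimates. -/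
theorem loc [M.Cpt] (hSMV : St_SMV) {L : M.Co} {Φ : M.Fam ℝ} {ρ : (Fin k → ℝ) → M.X → ℝ}
    {q : M.X → ℝ} (hG : M.Met G) (hΦ : M.WtC L Φ) (hL : Lip M ρ) (hq : M.Sm q) :
    ∃ (A : ℝ) (D : ℕ → ℝ), 1 ≤ A ∧ (∀ m, 0 ≤ D m) ∧ ∀ y, ∃ N : ℝ → Set M.X, ∀ t, 0 < t → t ≤ A⁻¹ →
      (∀ y' ∈ N t, (∀ ξ, ρ ξ y' ≤ ρ ξ y + A * Real.exp (A * ‖ξ‖) * t) ∧ q y' ≤ q y + A * t) ∧
      ∀ (m : ℕ) (s : M.Fam ℂ) (w : M.X → ℝ) (B a : ℝ), M.HSecC (L.pw m) s → M.Sm w →
        ∫ y, M.nrC ((m : ℝ) • Φ + fun e z => w (e.symm z)) s y ∂M.mu G ≤ B → (∀ y' ∈ N t, w y' ≤ a) →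
        M.nrC ((m : ℝ) • Φ) s y * t ^ (2 * n) ≤ D m * B * Real.exp a := by
  obtain ⟨Q, Q0, hQ⟩ := ((mLAP n M q q hq hq).2.2 G hG).2.1.exists_bound
  have key : ∀ x : M.X, ∃ e ∈ M.C, x ∈ e.source ∧ ∃ (R A : ℝ) (D : ℕ → ℝ), 0 < R ∧ 0 ≤ A ∧
      R⁻¹ ≤ A ∧ (∀ m, 0 ≤ D m) ∧ (∀ z ∈ ball (e x) (2 * R), ∀ z' ∈ ball (e x) (2 * R),
        (∀ ξ, |ρ ξ (e.symm z) - ρ ξ (e.symm z')| ≤ A * Real.exp (A * ‖ξ‖) * ‖z - z'‖) ∧
        |q (e.symm z) - q (e.symm z')| ≤ A * ‖z - z'‖) ∧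
      ∀ (m : ℕ) (s : M.Fam ℂ) (w : M.X → ℝ) (B a t : ℝ), M.HSecC (L.pw m) s → M.Sm w →
        ∫ y, M.nrC ((m : ℝ) • Φ + fun e z => w (e.symm z)) s y ∂M.mu G ≤ B → 0 < t → t ≤ R →
        ∀ z ∈ ball (e x) R, (∀ z' ∈ ball z t, w (e.symm z') ≤ a) →
          M.nrC ((m : ℝ) • Φ) s (e.symm z) * t ^ (2 * n) ≤ D m * B * Real.exp a := fun x => by
    obtain ⟨e, he, hx, R, C, R0, h⟩ := hL x
    obtain ⟨R', R1, h1⟩ := nhds_basis_closedBall.mem_iff.1
      (inter_mem (e.open_target.mem_nhds (e.map_source hx)) (ball_mem_nhds (e x) R0))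
    have h2 : closedBall (e x) (2 * (R' / 2)) ⊆ e.target ∩ ball (e x) R := by
      rwa [mul_div_cancel₀ _ two_ne_zero]
    obtain ⟨C', c0, h3⟩ := (mBD n M G hG).2.2.2 e he _ _ (h2.trans inter_subset_left)
    choose D d0 hD using fun m : ℕ => hSMV n M G (L.pw m) _ e (e x) (R' / 2) hG (hΦ.pw m).1 he
      (h2.trans inter_subset_left)
    have p1 : 0 ≤ (R' / 2)⁻¹ := by positivity
    have p2 : 0 ≤ C' * (Q + 1) := by positivity
    have p3 := abs_nonneg C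
    refine ⟨e, he, hx, R' / 2, |C| + (R' / 2)⁻¹ + C' * (Q + 1), D, half_pos R1, by positivity,
      by linarith, d0, fun z hz z' hz' => ⟨fun ξ => ?_, ?_⟩, hD⟩
    · refine (h ξ z (h2 (ball_subset_closedBall hz)).2 z' (h2 (ball_subset_closedBall hz')).2).trans ?_
      have := le_abs_self C
      gcongr <;> linarith
    · refine (h3 q (Q + 1) hq (by positivity) (fun y => ?_) z (ball_subset_closedBall hz) z'
        (ball_subset_closedBall hz')).trans ?_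
      · nlinarith [(le_abs_self _).trans (hQ y)]
      · gcongr; linarith
  choose e he hx R A D R0 A0 RA D0 h1 h2 using key
  obtain ⟨T, -, hT⟩ := isCompact_univ.elim_nhds_subcover
    (fun x => (e x).source ∩ e x ⁻¹' ball (e x x) (R x)) fun x _ =>
      ((e x).isOpen_inter_preimage isOpen_ball).mem_nhds ⟨hx x, mem_ball_self (R0 x)⟩
  have s0 : 0 ≤ ∑ x ∈ T, A x := Finset.sum_nonneg fun x _ => A0 x
  refine ⟨∑ x ∈ T, A x + 1, fun m => ∑ x ∈ T, D x m, by linarith,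
    fun m => Finset.sum_nonneg fun x _ => D0 x m, fun y => ?_⟩
  obtain ⟨x, hxT, y1, y2⟩ := mem_iUnion₂.1 (hT (mem_univ y))
  have a1 : A x ≤ ∑ x ∈ T, A x + 1 := by
    linarith [Finset.single_le_sum (fun x _ => A0 x) hxT]
  refine ⟨fun t => (e x).symm '' ball (e x y) t, fun t t0 t1 => ?_⟩
  have t2 : t ≤ R x := t1.trans (inv_le_of_inv_le₀ (R0 x) ((RA x).trans a1))
  have y3 : dist (e x y) (e x x) < R x := y2
  constructor
  · rintro _ ⟨z', hz', rfl⟩
    have z1 : ‖z' - e x y‖ ≤ t := (mem_ball_iff_norm.1 hz').le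
    obtain ⟨b1, b2⟩ := h1 x z' (ball_subset_ball' (by linarith) hz') (e x y)
      (mem_ball.2 (by linarith [R0 x]))
    rw [(e x).left_inv y1] at b1 b2
    have := A0 x
    refine ⟨fun ξ => sub_le_iff_le_add'.1 ((le_abs_self _).trans ((b1 ξ).trans ?_)),
      sub_le_iff_le_add'.1 ((le_abs_self _).trans (b2.trans ?_))⟩ <;> gcongr
  · intro m s w B a c1 c2 c3 c4
    have := h2 x m s w B a t c1 c2 c3 t0 t2 _ y2 fun z' hz' => c4 _ ⟨z', hz', rfl⟩
    rw [(e x).left_inv y1] at this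
    have B0 : 0 ≤ B := (integral_nonneg fun y => Mf.nrC_nonneg _ _ y).trans c3
    refine this.trans ?_
    gcongr
    exact Finset.single_le_sum (f := fun x => D x m) (fun x _ => D0 x m) hxT

/-- The shifted vectors. -/
def bl (b : Fin k → ℝ) (c : ℝ) (l : Fin k × Bool) : Fin k → ℝ :=
  b + Pi.single l.1 (if l.2 then c else -c)

theorem bl_le (b ξ : Fin k → ℝ) {c : ℝ} (hc : 0 < c) (l : Fin k × Bool) :
    bl b c l ⬝ᵥ ξ ≤ b ⬝ᵥ ξ + c * ‖ξ‖ := by
  have h := abs_le.1 (norm_le_pi_norm ξ l.1)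
  rw [bl, add_dotProduct, single_dotProduct]
  split_ifs <;> nlinarith [h.1, h.2]

theorem bl_ex (b : Fin k → ℝ) {ξ : Fin k → ℝ} (c : ℝ) (h : ξ ≠ 0) :
    ∃ l, bl b c l ⬝ᵥ ξ = b ⬝ᵥ ξ + c * ‖ξ‖ := by
  obtain ⟨i₀, -⟩ := Function.ne_iff.1 h
  obtain ⟨i, -, hi⟩ := Finset.exists_max_image Finset.univ (fun i => ‖ξ i‖) ⟨i₀, Finset.mem_univ _⟩
  have e : ‖ξ‖ = |ξ i| := le_antisymm
    ((pi_norm_le_iff_of_nonneg (abs_nonneg _)).2 fun j => hi j (Finset.mem_univ j))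
    (norm_le_pi_norm ξ i)
  rcases abs_cases (ξ i) with a | a
  · exact ⟨(i, true), by simp [bl, e, a.1]⟩
  · exact ⟨(i, false), by simp [bl, e, a.1]⟩

end CO0

open CO0 in
theorem st_CO0 (hGPK : St_GPK) (hTBL : St_TBL) (hSMV : St_SMV) (hLIM : St_LIM) : St_CO0 := by
  intro n k M _ G L Φ η ρ b x₀ c₁ C₁ C₂ q hK hΦ hΦG hg hη ρ0 hM hL c1 hO qs q0 qx hq
  obtain ⟨A, D, A1, D0, hloc⟩ := loc hSMV hK.toMet hΦ hL qs
  have A0 : 0 < A := one_pos.trans_le A1
  obtain ⟨Q, Q0, hQ⟩ := qs.exists_bound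
  have qQ : ∀ x, q x ≤ Q := fun x => (le_abs_self _).trans (hQ x)
  have q1 : 0 < q x₀ := (q0 x₀).lt_of_ne' qx
  obtain ⟨Cη, -, η1, -⟩ := (mBD n M G hK.toMet).1 η hη
  obtain ⟨CR, -, -, r1⟩ := (mBD n M G hK.toMet).1 _
    ((mHES n M).2.2.2.2.2.2.2.2.1 G hK.toMet).toForm
  set N : ℝ := (2 * n * A + 1) / c₁ with hN
  have N0 : 0 < N := by positivity
  set p : ℝ := ((2 * n + 1 : ℕ) : ℝ) with hp
  have p0 : 0 ≤ p := Nat.cast_nonneg _
  set ε : ℕ → ℝ := fun j => 1 / ((j : ℝ) + 1) with hε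
  have ε0 : ∀ j, 0 < ε j := fun j => Nat.one_div_pos_of_nat
  have ε1 : ∀ j, ε j ≤ 1 := fun j => (div_le_one (by positivity)).2 (by simp)
  have εt : Tendsto ε (hyperfilter ℕ) (𝓝 0) :=
    tendsto_one_div_add_atTop_nhds_zero_nat.mono_left Nat.hyperfilter_le_atTop
  choose P P1 P2 P3 using fun (j : ℕ) (l : Fin k × Bool) => hM (bl b c₁ l) (ε j) (ε0 j)
  have P0 : ∀ j l x, P j l x ≤ 0 := fun j l x => by simpa [ρ0] using (P3 j l x).1 0
  set w : ℕ → M.X → ℝ := fun j x => N * ∑ l, P j l x + p * Real.log (q x + ε j) with hw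
  set κ : ℝ := ((Finset.univ : Finset (Fin k × Bool)).card : ℝ) with hκ
  have wq : ∀ j, QP G (N * (κ * Cη) + p * C₂) (w j) := fun j =>
    ((QP.sum (fun l => ⟨P1 j l, (P2 j l).trans (η1.add (Mf.Le.refl _))⟩) _).mul N0.le).add
      (QP.mul ⟨(qs.add (Mf.sm_const _)).log fun x => (add_pos_of_nonneg_of_pos (q0 x) (ε0 j)).ne',
        hq _ (ε0 j)⟩ p0)
  have w1 : ∀ j x, N * ∑ l, P j l x ≤ 0 := fun j x =>
    mul_nonpos_of_nonneg_of_nonpos N0.le (Finset.sum_nonpos fun l _ => P0 j l x)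
  have w2 : ∀ j x, p * Real.log (q x + ε j) ≤ p * Real.log (Q + 1) := fun j x =>
    mul_le_mul_of_nonneg_left (Real.log_le_log (add_pos_of_nonneg_of_pos (q0 x) (ε0 j))
      (add_le_add (qQ x) (ε1 j))) p0
  have he := Mf.ch_mem x₀
  have hx := Mf.mem_ch x₀
  set e := M.ch x₀ with hee
  obtain ⟨U, s, c, xU, UO, -, -, hT⟩ := hTBL n M G e x₀ _ hK.toMet.toForm hK.toMet.nonneg he hx
    (hK.pos.at he hx) (hO.and (qs.continuous.continuousAt.eventually (lt_mem_nhds (half_lt_self q1))))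
  obtain ⟨R, R0, hR⟩ := nhds_basis_closedBall.mem_iff.1 (e.open_target.mem_nhds (e.map_source hx))
  obtain ⟨C, hC⟩ := hGPK n n M G G U _ s c e x₀ R hK hT he hx xU (sub_self _) R0
  obtain ⟨m, hm⟩ := exists_nat_ge (C + CR + (N * (κ * Cη) + p * C₂))
  obtain ⟨g, g1, g2⟩ := hg m
  obtain ⟨m1, m2⟩ := hΦ.pw m
  obtain ⟨B₀, B0, hB0⟩ := (m1.nr_sm g1.toSecC).exists_bound
  obtain ⟨B₁, B1, hB1⟩ := BBD.up (isCompact_closedBall (e x₀) R) (f := ((m : ℝ) • Φ) e)
    fun z hz => (m1.sm e he z (hR hz)).continuousAt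
  set W : ℝ := N * (κ * C₁) - p * Real.log (q x₀ / 2) with hW
  have pQ : 0 ≤ p * Real.log (Q + 1) := mul_nonneg p0 (Real.log_nonneg (by linarith))
  have BW : 0 ≤ B₀ * Real.exp W := by positivity
  obtain ⟨A', hA'⟩ := hC (B₀ * Real.exp W + (B₁ + p * Real.log (Q + 1))) (by positivity)
  have g3 : 0 < ‖g e (e x₀)‖ := norm_pos_iff.2 g2
  have ex : ∀ j, ∃ t, M.HSecC (L.pw m) t ∧
      ∫ y, M.nrC ((m : ℝ) • Φ + fun e z => w j (e.symm z)) t y ∂M.mu G ≤ A' ∧
      ‖t e (e x₀) - g e (e x₀)‖ ≤ ‖g e (e x₀)‖ / 2 := fun j => by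
    obtain ⟨a1, a2⟩ := m1.addF (wq j).1
    obtain ⟨t, t1, t2, t3, -⟩ := hA' _ (half_pos g3) (L.pw m) _ g a1 (fun e he z hz => by
        have e1 := a2 e he z hz
        have e2 := m2 e he z hz
        have e3 := hΦG e he z hz
        beta_reduce at e1 e2 e3
        have := (((wq j).2 e he z hz).add (r1 e he z hz)).add
          (Mf.psd_rsmul (hK.pos e he z hz).posSemidef (sub_nonneg.2 hm))
        refine (congrArg Matrix.PosSemidef ?_).mp this
        rw [e2, e3] at e1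
        simp only [Pi.add_apply, Pi.smul_apply, Pi.zero_apply, Pi.neg_apply, e1]
        module)
      ⟨fun e he z hz _ => g1.hol e he z hz, fun e he e' he' x hx hx' _ => g1.cmp e he e' he' x hx hx'⟩
      (fun e he z hz hU _ => by
        have b1 := (le_abs_self _).trans (hB0 (e.symm z))
        rw [m1.nr_rep g1.toSecC e he z hz] at b1
        obtain ⟨b2, b3⟩ := UO hU
        have b4 : -W ≤ w j (e.symm z) := by
          have d1 : ∑ l : Fin k × Bool, -C₁ ≤ ∑ l, P j l (e.symm z) := Finset.sum_le_sum fun l _ => by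
            obtain ⟨ξ, hξ⟩ := (P3 j l (e.symm z)).2
            linarith [bl_le b ξ c1 l, b2 ξ]
          rw [Finset.sum_const, nsmul_eq_mul, ← hκ] at d1
          have d2 := mul_le_mul_of_nonneg_left (Real.log_le_log (half_pos q1)
            (b3.le.trans (le_add_of_nonneg_right (ε0 j).le))) p0
          have d3 := mul_le_mul_of_nonneg_left d1 N0.le
          simp only [hw, hW]
          linarith
        have b5 : Real.exp (-w j (e.symm z)) ≤ Real.exp W := Real.exp_le_exp.2 (by linarith)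
        beta_reduce at b1 ⊢
        rw [Pi.add_apply, Pi.add_apply, neg_add, Real.exp_add, ← mul_assoc]
        have := mul_le_mul b1 b5 (Real.exp_pos _).le B0.le
        linarith)
      (fun z hz _ => by
        have b1 := hB1 z (ball_subset_closedBall hz)
        have b2 := w1 j (e.symm z)
        have b3 := w2 j (e.symm z)
        simp only [Pi.add_apply, hw]
        linarith)
    exact ⟨t, t1, t2, t3⟩
  choose t t1 t2 t3 using ex
  have A'0 : 0 ≤ A' := (integral_nonneg fun y => Mf.nrC_nonneg _ _ y).trans (t2 0)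
  have DA : 0 ≤ D m * A' := mul_nonneg (D0 m) A'0
  set B₂ := D m * A' * Real.exp (p * Real.log (Q + 1)) / A⁻¹ ^ (2 * n) with hB₂
  have B2 : 0 ≤ B₂ := by positivity
  have hb : ∀ j y, M.nrC ((m : ℝ) • Φ) (t j) y ≤ B₂ := fun j y => by
    obtain ⟨Nb, h⟩ := hloc y
    exact (le_div_iff₀ (by positivity)).2 ((h _ (by positivity) le_rfl).2 m _ _ _ _ (t1 j) (wq j).1
      (t2 j) fun y' _ => by linarith [w1 j y', w2 j y'])
  obtain ⟨σ, s1, s2⟩ := hLIM n M _ _ ℕ (hyperfilter ℕ) t B₂ m1 t1 hb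
  have lim : ∀ y, Tendsto (fun j => M.nrC ((m : ℝ) • Φ) (t j) y) (hyperfilter ℕ)
      (𝓝 (M.nrC ((m : ℝ) • Φ) σ y)) := fun y =>
    ((continuous_normSq.tendsto _).comp (Mf.AllOn.ch s2 y)).mul_const _
  set K := D m * A' * (1 + A) ^ (2 * n + 1) with hKd
  have K0 : 0 ≤ K := by positivity
  set Z := D m * A' * Real.exp (N + p * Real.log (Q + 1)) * A ^ (2 * n) + 1 with hZ
  have Z1 : 1 ≤ Z := le_add_of_nonneg_left (by positivity)
  have LZ := Real.log_nonneg Z1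
  have Ni : 0 < N⁻¹ := by positivity
  refine ⟨m, σ, N⁻¹, K + B₂ * A + N⁻¹ * (Real.log Z + 1), Ni, by positivity, s1, fun h0 => ?_,
    fun y => ⟨?_, fun hy ξ => ?_⟩⟩
  · have := le_of_tendsto' (((Mf.AllOn.ch s2 x₀).sub_const (g e (e x₀))).norm) t3
    rw [show σ (M.ch x₀) (M.ch x₀ x₀) = 0 from h0, zero_sub, norm_neg] at this
    linarith
  · obtain ⟨Nb, h⟩ := hloc y
    have a : ∀ u, 0 < u → u ≤ A⁻¹ → q y ≤ u → M.nrC ((m : ℝ) • Φ) σ y ≤ K * u := fun u u0 u1 u2 => by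
      obtain ⟨b1, b2⟩ := h u u0 u1
      have b3 : ∀ j, M.nrC ((m : ℝ) • Φ) (t j) y * u ^ (2 * n) ≤
          D m * A' * ((1 + A) * u + ε j) ^ (2 * n + 1) := fun j => by
        have d0 : 0 < (1 + A) * u + ε j := by have := ε0 j; positivity
        rw [← Real.exp_log d0, ← Real.exp_nat_mul]
        refine b2 m _ _ _ _ (t1 j) (wq j).1 (t2 j) fun y' hy' => ?_
        have d1 := mul_le_mul_of_nonneg_left (Real.log_le_log
          (add_pos_of_nonneg_of_pos (q0 y') (ε0 j))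
          (show q y' + ε j ≤ (1 + A) * u + ε j by linarith [(b1 y' hy').2])) p0
        linarith [w1 j y']
      have b4 := le_of_tendsto_of_tendsto' ((lim y).mul_const _)
        (((εt.const_add ((1 + A) * u)).pow (2 * n + 1)).const_mul (D m * A')) b3
      refine le_of_mul_le_mul_right (b4.trans_eq ?_) (pow_pos u0 (2 * n))
      rw [add_zero, mul_pow, hKd]
      ring
    have y0 := q0 y
    have y1 : 0 ≤ N⁻¹ * (Real.log Z + 1) * q y := by positivity
    have y2 : 0 ≤ B₂ * A * q y := by positivity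
    have y3 : 0 ≤ K * q y := by positivity
    rcases le_or_gt (q y) A⁻¹ with h1 | h1
    · rcases y0.eq_or_lt with h2 | h2
      · have : M.nrC ((m : ℝ) • Φ) σ y ≤ K * 0 := ge_of_tendsto
          ((Continuous.tendsto (f := fun u : ℝ => K * u) (by fun_prop) 0).mono_left
            (nhdsWithin_le_nhds (s := Ioi 0)))
          (Filter.mem_of_superset (Ioc_mem_nhdsGT (inv_pos.2 A0)) fun u hu =>
            a u hu.1 hu.2 (h2 ▸ hu.1.le))
        linarith
      · linarith [a _ h2 h1 le_rfl]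
    · have b1 := le_of_tendsto' (lim y) fun j => hb j y
      have b2 : 1 ≤ A * q y := by
        have := mul_le_mul_of_nonneg_left h1.le A0.le
        rwa [mul_inv_cancel₀ A0.ne'] at this
      nlinarith [mul_le_mul_of_nonneg_left b2 B2]
  · set v := M.nrC ((m : ℝ) • Φ) σ y with hv
    have v0 : 0 < v := (Mf.nrC_nonneg _ _ y).lt_of_ne' (Mf.nrC_ne.2 hy)
    have la := abs_nonneg (Real.log v)
    have f1 : N⁻¹ * (Real.log Z + |Real.log v|) ≤
        (K + B₂ * A + N⁻¹ * (Real.log Z + 1)) * (1 + |Real.log v|) := by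
      have : 0 ≤ (K + B₂ * A) * (1 + |Real.log v|) := by positivity
      have : 0 ≤ N⁻¹ * (Real.log Z * |Real.log v| + 1) := by positivity
      nlinarith
    rcases eq_or_ne ξ 0 with rfl | hξ
    · have : 0 ≤ N⁻¹ * (Real.log Z + |Real.log v|) := by positivity
      simp only [norm_zero, mul_zero, ρ0, dotProduct_zero]
      linarith
    obtain ⟨l, hl⟩ := bl_ex b c₁ hξ
    obtain ⟨Nb, h⟩ := hloc y
    have u0 : 0 < A⁻¹ * Real.exp (-(A * ‖ξ‖)) := by positivity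
    obtain ⟨b1, b2⟩ := h _ u0 (mul_le_of_le_one_right (by positivity)
      (Real.exp_le_one_iff.2 (neg_nonpos.2 (by positivity))))
    have u1 : A * Real.exp (A * ‖ξ‖) * (A⁻¹ * Real.exp (-(A * ‖ξ‖))) = 1 := by
      rw [Real.exp_neg]; field_simp
    set a := N * (ρ ξ y - bl b c₁ l ⬝ᵥ ξ + 1) + p * Real.log (Q + 1) with ha
    have b3 : ∀ j, M.nrC ((m : ℝ) • Φ) (t j) y * (A⁻¹ * Real.exp (-(A * ‖ξ‖))) ^ (2 * n) ≤
        D m * A' * Real.exp (a + N * (ε j * (ξ ⬝ᵥ ξ))) := fun j => by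
      refine b2 m _ _ _ _ (t1 j) (wq j).1 (t2 j) fun y' hy' => ?_
      have d1 : ∑ l, P j l y' ≤ P j l y' := by
        rw [← Finset.add_sum_erase _ _ (Finset.mem_univ l)]
        exact add_le_of_nonpos_right (Finset.sum_nonpos fun l _ => P0 j l y')
      have d2 := (P3 j l y').1 ξ
      have d3 := (b1 y' hy').1 ξ
      rw [u1] at d3
      have d4 := mul_le_mul_of_nonneg_left (show ∑ l, P j l y' ≤
        ρ ξ y - bl b c₁ l ⬝ᵥ ξ + 1 + ε j * (ξ ⬝ᵥ ξ) by linarith) N0.le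
      have d5 := w2 j y'
      simp only [hw, ha]
      linarith
    have b4 := le_of_tendsto_of_tendsto' ((lim y).mul_const _) (((Real.continuous_exp.tendsto _).comp
      (((εt.mul_const (ξ ⬝ᵥ ξ)).const_mul N).const_add a)).const_mul (D m * A')) b3
    rw [zero_mul, mul_zero, add_zero, ← hv] at b4
    have b5 : v ≤ Z * Real.exp (N * (ρ ξ y - b ⬝ᵥ ξ) - ‖ξ‖) := by
      refine le_of_mul_le_mul_right (b4.trans ?_) (pow_pos u0 (2 * n))
      have d1 : a = (N + p * Real.log (Q + 1)) + ((N * (ρ ξ y - b ⬝ᵥ ξ) - ‖ξ‖) +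
          ((2 * n : ℕ) : ℝ) * -(A * ‖ξ‖)) := by
        have : N * c₁ = 2 * n * A + 1 := div_mul_cancel₀ _ c1.ne'
        rw [ha, hl]
        push_cast
        linear_combination (-‖ξ‖) * this
      rw [d1, Real.exp_add, Real.exp_add (_ - _), Real.exp_nat_mul, mul_pow, hZ]
      have d2 : A ^ (2 * n) * A⁻¹ ^ (2 * n) = 1 := by rw [← mul_pow, mul_inv_cancel₀ A0.ne', one_pow]
      have d3 : 0 ≤ Real.exp (N * (ρ ξ y - b ⬝ᵥ ξ) - ‖ξ‖) *
        (A⁻¹ ^ (2 * n) * Real.exp (-(A * ‖ξ‖)) ^ (2 * n)) := by positivity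
      linear_combination d3 - (D m * A' * Real.exp (N + p * Real.log (Q + 1)) *
        Real.exp (N * (ρ ξ y - b ⬝ᵥ ξ) - ‖ξ‖) * Real.exp (-(A * ‖ξ‖)) ^ (2 * n)) * d2
    have b6 := Real.log_le_log v0 b5
    rw [Real.log_mul (by positivity) (Real.exp_pos _).ne', Real.log_exp] at b6
    have b7 := mul_le_mul_of_nonneg_left (show ‖ξ‖ - (Real.log Z + |Real.log v|) ≤
      N * (ρ ξ y - b ⬝ᵥ ξ) by linarith [neg_abs_le (Real.log v)]) Ni.le
    rw [inv_mul_cancel_left₀ N0.ne', mul_sub] at b7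
    linarith

end Pool.Agent.Lib.RAG
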