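import Pool.Agent.Lib.RYG.Blue
import Pool.Agent.Lib.HS.B_PEAK1

/-! Project ra2: peak sections with prescribed jet of order one. -/

open scoped Classical Topology ContDiff ComplexOrder Matrix ENNReal
open Set MeasureTheory Complex Metric Filter

set_option linter.unusedVariables false

noncomputable section

namespace Pool.Agent.Lib.RAG

open Pool.Agent.Lib.SV (E nsq)
open Pool.Agent.Lib.HS32
open Pool.Agent.Lib.HS.P55 (nq_mono nsq_le low)

namespace GPK

variable {n : ℕ} {M : Mf n}

theorem hs_mul {l : M.X → ℝ} (hl : M.Sm l) (c : ℝ) : M.All fun e z =>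
    M.hs (fun x => c * l x) e z = c • M.hs l e z := fun e he z hz => by
  have b := hl.lc e he z hz
  change _ = (c : ℂ) • hess (M.lc l e) z
  rw [← hess_const_mul _ b]
  exact congrArg (hess · z) (funext fun w => by simp [Mf.lc])

theorem nq_nonneg {T : Mat n} (h : T.PosSemidef) (v : E n) : 0 ≤ nq T v :=
  (Complex.nonneg_iff.1 (h.dotProduct_mulVec_nonneg v)).1

theorem nsq_add (a b : ℂ) : normSq (a - b) ≤ 2 * normSq a + 2 * normSq b := by
  simp only [normSq_apply, sub_re, sub_im]
  nlinarith [sq_nonneg (a.re + b.re), sq_nonneg (a.im + b.im)]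

/-- Jets from an integral bound. -/
theorem jet {f : E n → ℂ} {c : E n} {t k A : ℝ} (ht : 0 < t) (hk : 0 < k) (hA : 0 ≤ A)
    (hf : DifferentiableOn ℂ f (ball c (2 * t))) {g : E n → ℝ≥0∞}
    (hg : ∀ z ∈ ball c (2 * t), ENNReal.ofReal (k / t ^ (2 * (n + 2)) * normSq (f z)) ≤ g z)
    (h : ∫⁻ z in ball c (2 * t), g z ≤ ENNReal.ofReal A) :
    ‖f c‖ ≤ √(A / (k * (volume (ball (0 : E n) 1)).toReal)) * t ^ 2 ∧
      ‖fderiv ℂ f c‖ ≤ 2 * √(A / (k * (volume (ball (0 : E n) 1)).toReal)) * t := by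
  set V := (volume (ball (0 : E n) 1)).toReal with hV
  have hV0 : 0 < V := ENNReal.toReal_pos (measure_ball_pos _ _ one_pos).ne' measure_ball_lt_top.ne
  have key : ∀ z ∈ ball c t, ‖f z‖ ≤ √(A / (k * V)) * t ^ 2 := fun z hz => by
    have hs : ball z t ⊆ ball c (2 * t) := ball_subset_ball' (by have := mem_ball.1 hz; linarith)
    have h1 := low ht (by positivity) hA (hf.mono hs) (fun w hw => hg w (hs hw))
      ((lintegral_mono_set hs).trans h)
    rw [← Real.sqrt_sq (norm_nonneg (f z)), ← Real.sqrt_sq (by positivity : 0 ≤ t ^ 2),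
      ← Real.sqrt_mul (by positivity)]
    refine Real.sqrt_le_sqrt ?_
    rw [← normSq_eq_norm_sq, div_mul_eq_mul_div, le_div_iff₀ (by positivity)]
    have e : normSq (f z) * (k * V) =
        k / t ^ (2 * (n + 2)) * normSq (f z) * (t ^ (2 * n) * V) * (t ^ 2) ^ 2 := by
      field_simp
      ring
    rw [e]
    exact mul_le_mul_of_nonneg_right h1 (by positivity)
  refine ⟨key c (mem_ball_self ht), (SV.H85.norm_fderiv_le ht
    (hf.mono (ball_subset_ball (by linarith))) key).trans_eq ?_⟩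
  field_simp

end GPK

open GPK in
theorem st_GPK (hCUT : St_CUT) (hSEC : St_SEC) (hHOR : KP.St_HOR) : St_GPK := by
  intro n r M _ G T U H s c e x ρ hK hT he hx hxU hH0 hρ
  obtain ⟨C₁, c1, hl⟩ := hCUT n r M T U H s c hT
  obtain ⟨C₂, c2, hσ⟩ := hSEC n r M T U H s c hT
  have hz := e.map_source hx
  have d0 : DifferentiableAt ℂ (H ∘ e.symm) (e x) := hT.hol e he _ hz (by rwa [e.left_inv hx])
  have v0 : (H ∘ e.symm) (e x) = 0 := by rw [Function.comp_apply, e.left_inv hx, hH0]
  obtain ⟨Λ, Λ0, hΛ⟩ := d0.isBigO_sub.exists_pos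
  have ev : ∀ᶠ z in 𝓝 (e x), z ∈ e.target ∧ z ∈ ball (e x) ρ ∧ e.symm z ∈ U ∧
      ‖H (e.symm z)‖ < s / 4 ∧ ‖H (e.symm z)‖ ≤ Λ * ‖z - e x‖ := by
    have a : ContinuousAt e.symm (e x) := e.continuousAt_symm hz
    have b := d0.continuousAt.norm.eventually_lt (continuousAt_const (y := s / 4))
      (by rw [v0, norm_zero]; linarith [hT.s0])
    filter_upwards [e.open_target.mem_nhds hz, ball_mem_nhds _ hρ,
      a.eventually_mem (hT.opn.mem_nhds (by rwa [e.left_inv hx])), b, hΛ.bound] with z h1 h2 h3 h4 h5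
    rw [v0, sub_zero] at h5
    exact ⟨h1, h2, h3, h4, h5⟩
  obtain ⟨R, R0, hR⟩ := nhds_basis_closedBall.eventually_iff.1 ev
  obtain ⟨D, hD, hD'⟩ := (mBD n M G hK.toMet).2.2.1 e he _ (isCompact_closedBall (e x) R)
    fun z hz => (hR hz).1
  obtain ⟨-, hfin, -, -, hint, hch, -⟩ := mMU n M G hK.toMet
  set K : Set M.X := {y | y ∈ U ∧ s / 4 ≤ ‖H y‖ ∧ ‖H y‖ ≤ s} with hKd
  have hKm : MeasurableSet K := by
    have a : IsOpen {y | y ∈ U ∧ ‖H y‖ < s / 4} := isOpen_iff_mem_nhds.2 fun y hy => by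
      have b := (hT.hol _ (Mf.ch_mem y) _ (Mf.ch_tgt y) (by rw [Mf.ch_symm]; exact hy.1)).continuousAt
      have d : ContinuousAt H y := by
        refine (b.comp ((M.ch y).continuousAt (Mf.mem_ch y))).congr ?_
        filter_upwards [(M.ch y).open_source.mem_nhds (Mf.mem_ch y)] with w hw
        simp only [Function.comp_apply, (M.ch y).left_inv hw]
      filter_upwards [hT.opn.mem_nhds hy.1, d.norm.eventually_lt continuousAt_const hy.2]
        with w h1 h2 using ⟨h1, h2⟩
    have b : K = {y | y ∈ U ∧ ‖H y‖ ≤ s} \ {y | y ∈ U ∧ ‖H y‖ < s / 4} := by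
      ext y
      simp only [hKd, mem_ofPred_eq, Set.mem_sdiff, not_and, not_lt]
      tauto
    rw [b]
    exact hT.cl.measurableSet.diff a.measurableSet
  set N : ℝ := ((n + 2 : ℕ) : ℝ) with hN
  have N0 : 0 ≤ N := Nat.cast_nonneg _
  refine ⟨N * C₁ + 1, fun B B0 => ?_⟩
  set μ := (M.mu G).real univ with hμ
  have μ0 : 0 ≤ μ := measureReal_nonneg
  set B' := C₂ * B * Real.exp (N * C₁) with hB'
  have B'0 : 0 ≤ B' := by positivity
  refine ⟨2 * (B * μ) + 2 * (Real.exp (N * C₁) * (B' * μ)), fun κ κ0 L Φ g hΦ hle hg hb hu => ?_⟩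
  set Q : ℝ := r * (2 * Λ) ^ 2 + 1 with hQ
  have Q0 : 0 < Q := by positivity
  set k := D⁻¹ * Real.exp (-B) / Q ^ (n + 2) with hk
  have k0 : 0 < k := by positivity
  set S := √(B' * μ / (k * (volume (ball (0 : E n) 1)).toReal)) with hS
  have S0 : 0 ≤ S := Real.sqrt_nonneg _
  obtain ⟨t, t0, t1, t2, t3⟩ : ∃ t : ℝ, 0 < t ∧ t ≤ 1 ∧ 2 * t ≤ R ∧ 2 * S * t ≤ κ := by
    refine ⟨min (min 1 (R / 2)) (κ / (2 * S + 1)), by positivity,
      (min_le_left _ _).trans (min_le_left _ _), ?_, ?_⟩
    · linarith [(min_le_left _ (κ / (2 * S + 1))).trans (min_le_right 1 (R / 2))]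
    · have a := (le_div_iff₀ (by positivity : 0 < 2 * S + 1)).1
        (min_le_right (min 1 (R / 2)) (κ / (2 * S + 1)))
      have b : 0 < min (min 1 (R / 2)) (κ / (2 * S + 1)) := by positivity
      nlinarith
  obtain ⟨l, l1, l2, l3, l4, l5⟩ := hl (t ^ 2) ⟨by positivity, pow_le_one₀ t0.le t1⟩
  obtain ⟨σ, s1, s2, s3, s4⟩ := hσ L Φ g B B0 hg hb
  obtain ⟨w1, w2⟩ := hΦ.addF (l1.const_mul N)
  set Ψ : M.Fam ℝ := Φ + fun e z => N * l (e.symm z) with hΨ
  have hΨe : ∀ e z, Real.exp (-Ψ e z) = Real.exp (-Φ e z) * Real.exp (-(N * l (e.symm z))) :=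
    fun e z => by rw [← Real.exp_add, hΨ, ← neg_add]; rfl
  have hw : M.Le T (M.hw Ψ + M.ric G) := fun e he z hz => by
    have e1 := w2 e he z hz
    have e3 := hs_mul l1 N e he z hz
    beta_reduce at e1 e3
    have := (hle e he z hz).add (Mf.psd_rsmul (l2 e he z hz) N0)
    refine (congrArg Matrix.PosSemidef ?_).mp this
    rw [e3] at e1
    simp only [Pi.add_apply, Pi.smul_apply, Pi.zero_apply, e1]
    module
  have hbb : ∀ y, 0 ≤ K.indicator (fun _ => B') y ∧ K.indicator (fun _ => B') y ≤ B' := fun y => by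
    by_cases hy : y ∈ K <;> simp [hy, B'0]
  obtain ⟨u, u1, hi⟩ := hHOR n M G L Ψ _ σ B' hK w1 s1 (hT.psd.trans hw)
    (measurable_const.indicator hKm) hbb fun e he z hz v => by
      have a := s4 e he z hz v
      have b := nq_mono (hw e he z hz) v
      have c := nq_nonneg (T := T e z) (by simpa using hT.psd e he z hz) v
      rw [hΨe, ← mul_assoc]
      refine (mul_le_mul_of_nonneg_right a (Real.exp_pos _).le).trans ?_
      by_cases hy : e.symm z ∈ K
      · simp only [indicator_of_mem hy]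
        have f : Real.exp (-(N * l (e.symm z))) ≤ Real.exp (N * C₁) := by
          refine Real.exp_le_exp.2 ?_
          have := l5 _ hy.1 hy.2.1
          nlinarith
        calc _ = C₂ * B * Real.exp (-(N * l (e.symm z))) * nq (T e z) v := by ring
          _ ≤ _ := mul_le_mul (mul_le_mul_of_nonneg_left f (by positivity)) b c B'0
      · simp only [indicator_of_notMem hy, zero_mul, le_refl]
  have hss := s1.sub u1.toSecC
  have hrep := w1.nr_rep hss
  have hcont := (w1.nr_sm hss).continuous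
  have hup : ∫ y, M.nrC Ψ (σ - u) y ∂M.mu G ≤ B' * μ := by
    refine hi.trans ?_
    rw [hμ, mul_comm, ← smul_eq_mul, ← integral_const]
    exact integral_mono_of_nonneg (Eventually.of_forall fun y => (hbb y).1) (integrable_const _)
      (Eventually.of_forall fun y => (hbb y).2)
  have hsub : ball (e x) (2 * t) ⊆ closedBall (e x) R :=
    ball_subset_closedBall.trans (closedBall_subset_closedBall t2)
  have hgd : ∀ z ∈ closedBall (e x) R, DifferentiableAt ℂ (g e) z := fun z hz =>
    hg.hol e he z (hR hz).1 (hR hz).2.2.1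
  have hud : ∀ z ∈ closedBall (e x) R, DifferentiableAt ℂ (u e) z := fun z hz =>
    u1.hol e he z (hR hz).1
  obtain ⟨j1, j2⟩ := jet (f := fun z => g e z - u e z) (A := B' * μ) t0 k0 (by positivity)
    (fun z hz => ((hgd z (hsub hz)).sub (hud z (hsub hz))).differentiableWithinAt)
    (g := fun z => ENNReal.ofReal (G e z).det.re * ENNReal.ofReal (M.nrC Ψ (σ - u) (e.symm z)))
    (fun z hz => by
      obtain ⟨-, -, d1, -⟩ := hD' z (hsub hz)
      obtain ⟨a1, a2, a3, a4, a5⟩ := hR (hsub hz)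
      have d0 : 0 < (G e z).det.re := lt_of_lt_of_le (by positivity) d1
      rw [← ENNReal.ofReal_mul d0.le, hrep e he z a1]
      refine ENNReal.ofReal_le_ofReal ?_
      have e1 : l (e.symm z) ≤ Real.log (Q * t ^ 2) := by
        rw [l4 _ a3 a4]
        have b0 := SV.nsq_nonneg (H (e.symm z))
        refine Real.log_le_log (by positivity) ?_
        have b1 : ‖H (e.symm z)‖ < 2 * Λ * t := by
          have := mul_lt_mul_of_pos_left (mem_ball_iff_norm.1 hz) Λ0
          linarith
        have := nsq_le b1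
        rw [hQ]
        nlinarith
      have e2 : Real.exp (-B) / (Q * t ^ 2) ^ (n + 2) ≤ Real.exp (-Ψ e z) := by
        rw [← Real.exp_log (x := Q * t ^ 2) (by positivity), ← Real.exp_nat_mul, ← Real.exp_sub]
        refine Real.exp_le_exp.2 ?_
        have := hu z a2 a1
        have e0 : Ψ e z = Φ e z + N * l (e.symm z) := rfl
        rw [e0, ← hN]
        nlinarith
      have e3 : (σ - u) e z = g e z - u e z := by rw [← s2 e he z a1 a3 a4]; rfl
      beta_reduce
      rw [e3]
      calc _ = D⁻¹ * (normSq (g e z - u e z) * (Real.exp (-B) / (Q * t ^ 2) ^ (n + 2))) := by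
            rw [hk, mul_pow, ← pow_mul]
            field_simp
        _ ≤ _ := by
            have := normSq_nonneg (g e z - u e z)
            gcongr)
    (by
      have hG : ∀ y, 0 ≤ M.nrC Ψ (σ - u) y := fun y => Mf.nrC_nonneg _ _ y
      rw [← ((hch e he _ measurableSet_ball fun z hz => (hR (hsub hz)).1).2.1 fun y =>
        ENNReal.ofReal (M.nrC Ψ (σ - u) y))]
      refine (setLIntegral_le_lintegral _ _).trans ?_
      exact (ofReal_integral_eq_lintegral_ofReal (hint _ _ hcont)
        (Eventually.of_forall hG)).ge.trans (ENNReal.ofReal_le_ofReal hup))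
  have hc := mem_closedBall_self (x := e x) R0.le
  refine ⟨u, u1, ?_, ?_, ?_⟩
  · have p : ∀ y, M.nrC Φ u y ≤ 2 * B + 2 * (Real.exp (N * C₁) * M.nrC Ψ (σ - u) y) := fun y => by
      have a := Mf.AllOn.ch s3 y
      have b := nsq_add (M.ev σ y) (M.ev (σ - u) y)
      have c : M.ev σ y - M.ev (σ - u) y = M.ev u y := sub_sub_cancel _ _
      have d : M.nrC Ψ (σ - u) y = normSq (M.ev (σ - u) y) * (Real.exp (-M.ev Φ y) *
          Real.exp (-(N * l y))) := by
        rw [Mf.nrC, Mf.ev, Mf.ev, hΨe, Mf.ch_symm]; rfl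
      have f : 1 ≤ Real.exp (N * C₁) * Real.exp (-(N * l y)) := by
        rw [← Real.exp_add]
        exact Real.one_le_exp (by nlinarith [l3 y])
      have p0 := Real.exp_pos (-M.ev Φ y)
      have p1 := mul_nonneg (normSq_nonneg (M.ev (σ - u) y)) p0.le
      change normSq (M.ev σ y) * Real.exp (-M.ev Φ y) ≤ B at a
      rw [c] at b
      rw [d, Mf.nrC]
      nlinarith [mul_le_mul_of_nonneg_right b p0.le, mul_le_mul_of_nonneg_left f p1]
    have i1 := hint _ _ hcont
    refine (integral_mono (hint _ _ (hΦ.nr_sm u1.toSecC).continuous)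
      ((integrable_const _).add ((i1.const_mul _).const_mul _)) p).trans ?_
    simp only [Pi.add_apply]
    rw [integral_add (integrable_const _) ((i1.const_mul _).const_mul _), integral_const,
      integral_const_mul, integral_const_mul, smul_eq_mul, ← hμ]
    have := mul_le_mul_of_nonneg_left hup (Real.exp_pos (N * C₁)).le
    linarith
  · rw [norm_sub_rev]
    refine j1.trans ?_
    have : S * t * t ≤ S * t := mul_le_of_le_one_right (by positivity) t1
    nlinarith [mul_nonneg S0 t0.le]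
  · rw [norm_sub_rev, ← fderiv_fun_sub (hgd _ hc) (hud _ hc)]
    exact j2.trans t3

end Pool.Agent.Lib.RAG
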