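import Pool.Agent.Lib.RA2.T56c
import Pool.Agent.Lib.RYG.T45
import Pool.Agent.Lib.RYG.B_BDU
import Pool.Agent.Lib.RYG.BlueZ

/-! Project ra2: peak sections for pairs. -/

open scoped Classical Topology ContDiff ComplexOrder Matrix
open Set MeasureTheory Complex Metric Filter

noncomputable section

namespace Pool.Agent.Lib.RA2.T56

open Pool.Agent.Lib.SV (E)
open Pool.Agent.Lib.HS32 Pool.Agent.Lib.RAG

variable {n r : ℕ} {M : Mf n}

/-- The data of a pair with an auxiliary positive bundle. -/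
structure Pd (M : Mf n) (k : ℕ) (G : M.Fam (Mat n)) (L LB LE LO : M.Co) (φ φB φE Ψ : M.Fam ℝ)
    (f g h : M.Fam ℂ) : Prop where
  kae : M.Kae G
  wL : M.WtC L φ
  wB : M.WtC LB φB
  wE : M.WtC LE φE
  dO : M.Dw LO h Ψ
  sB : M.HSecC LB f
  sE : M.HSecC LE g
  co : M.Ov fun e e' x =>
    L.c e e' x * LE.c e e' x = (M.J e e' x).det ^ (k + 1) * LB.c e e' x
  pos : M.Le 0 (M.hw φB + (k : ℝ) • M.hw φE + ((k + 1 : ℕ) : ℝ) • M.hw Ψ)

variable {k : ℕ} {G : M.Fam (Mat n)} {L LB LE LO : M.Co} {φ φB φE Ψ : M.Fam ℝ} {f g h : M.Fam ℂ}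

/-- The regularising functions. -/
theorem Pd.reg (D : Pd M k G L LB LE LO φ φB φE Ψ f g h) : ∃ v : M.X → ℝ, M.Sm v ∧
    ∀ d : ℝ, 0 < d → M.Sm (fun y => (1 / (k + 1 : ℕ) : ℝ) * (v y + Real.log
        (M.nrC φB f y * (M.nrC φE g y ^ k * M.nrC Ψ h y ^ (k + 1)) + d))) ∧
      M.All fun e z => ((1 / (k + 1 : ℕ) : ℝ) • M.hw φ e z + M.hw φE e z + M.hw Ψ e z +
        M.hs (fun y => (1 / (k + 1 : ℕ) : ℝ) * (v y + Real.log
          (M.nrC φB f y * (M.nrC φE g y ^ k * M.nrC Ψ h y ^ (k + 1)) + d))) e z +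
        M.ric G e z).PosSemidef := by
  obtain ⟨w1, w2⟩ := D.wB.tw D.kae.toMet (k + 1)
  have w3 : M.WtC (LB.tw (k + 1)) (φ + φE) :=
    wt_of (wt_ml D.wL D.wE) fun e he e' he' x hx hx' => (D.co e he e' he' x hx hx').symm
  obtain ⟨v1, v2⟩ := w1.subW w3
  generalize (((k + 1 : ℕ) : ℝ) • (fun e z => Real.log (G e z).det.re) + φB : M.Fam ℝ) = χ
    at w1 w2 v1 v2
  generalize M.ev (χ - (φ + φE)) = v at v1 v2
  have a1 := D.wE.pw k
  have a2 := D.dO.wt.pw (k + 1)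
  have wF := wt_ml D.wB (wt_ml a1.1 a2.1)
  have sF := hs_ml D.sB (hs_ml (hs_pw D.sE k) (hs_pw D.dO.hol (k + 1)))
  have cF : M.All fun e z => M.hw (φB + ((k : ℝ) • φE + ((k + 1 : ℕ) : ℝ) • Ψ)) e z =
      M.hw φB e z + (k : ℝ) • M.hw φE e z + ((k + 1 : ℕ) : ℝ) • M.hw Ψ e z := fun e he z hz => by
    beta_reduce
    rw [Mf.hw_add (D.wB.sm e he z hz) ((wt_ml a1.1 a2.1).sm e he z hz),
      Mf.hw_add (a1.1.sm e he z hz) (a2.1.sm e he z hz), a1.2 e he z hz, a2.2 e he z hz, add_assoc]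
  have nF : M.nrC (φB + ((k : ℝ) • φE + ((k + 1 : ℕ) : ℝ) • Ψ))
      (fun e z => f e z * (g e z ^ k * h e z ^ (k + 1))) =
      fun y => M.nrC φB f y * (M.nrC φE g y ^ k * M.nrC Ψ h y ^ (k + 1)) := funext fun y => by
    rw [nr_ml, nr_ml, nr_pw, nr_pw]
  refine ⟨v, v1, fun d hd => ?_⟩
  have pF := psd_log sF wF (D.pos.congr (fun _ _ _ _ => rfl) cF) hd
  have lF := ((wF.nr_sm sF.toSecC).add (Mf.sm_const d)).log fun x =>
    (add_pos_of_nonneg_of_pos (M.nrC_nonneg _ _ x) hd).ne'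
  rw [nF] at pF lF
  have sm := v1.add lF
  refine ⟨sm.const_mul _, fun e he z hz => ?_⟩
  have b1 := ((mLAP n M _ _ sm sm).1 (1 / (k + 1 : ℕ) : ℝ) e he z hz).2.2.2.1
  have b2 := ((mLAP n M _ _ v1 lF).1 0 e he z hz).2.1
  have b3 : M.hs v e z = M.hw χ e z - (M.hw φ e z + M.hw φE e z) := by
    rw [← Mf.hw_add (D.wL.sm e he z hz) (D.wE.sm e he z hz)]
    refine Eq.trans (hess_congr ((v2.ev he hz).mono fun w hw => ?_))
      (hess_sub (cd_ofReal (w1.sm e he z hz)) (cd_ofReal (w3.sm e he z hz)))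
    exact (congrArg ofReal hw).trans (ofReal_sub _ _)
  have p := (pF e he z hz).smul (show (0 : ℝ) ≤ 1 / (k + 1 : ℕ) by positivity)
  beta_reduce at b1 b2 ⊢
  rw [b1, b2, b3, w2 e he z hz]
  rw [cF e he z hz] at p
  refine (congrArg Matrix.PosSemidef ?_).mp p
  push_cast
  match_scalars <;> field_simp <;> ring

theorem exp_w {a v u : ℝ} (hu : 0 < u) :
    Real.exp (-(a * (v + Real.log u))) = Real.exp (-(a * v)) * u ^ (-a) := by
  rw [Real.rpow_def_of_pos hu, ← Real.exp_add]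
  congr 1
  ring

/-- One section with prescribed jet that is divisible by `h`. -/
theorem Pd.one [M.Cpt] (hGP : St_GPK2) (D : Pd M k G L LB LE LO φ φB φE Ψ f g h) {c s c₀ : ℝ}
    (hc : (1 / (k + 1 : ℕ) : ℝ) ≤ c) (hl : M.Lct f c) {U : Set M.X} {H : M.X → E r}
    (tub : Tub M (M.hw φ) U H s c₀) {e : M.Ch} {x : M.X} (he : e ∈ M.C) (hx : x ∈ e.source)
    (hU : x ∈ U) (h0 : H x = 0) : ∃ C : ℝ, ∀ j : ℕ, C ≤ j → ∀ σ, SecU M (L.pw (j + 1)) U σ →
      ∀ κ : ℝ, 0 < κ → ∃ t t₁ : M.Fam ℂ, M.HSecC (ml (L.pw (j + 1)) LE) t₁ ∧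
        (M.All fun e z => t e z = h e z * t₁ e z) ∧ ‖t e (e x) - σ e (e x) * g e (e x) * h e (e x)‖ ≤ κ ∧
        ‖fderiv ℂ (t e) (e x) - fderiv ℂ (fun z => σ e z * g e z * h e z) (e x)‖ ≤ κ := by
  have hG := D.kae.toMet
  have hint := (mMU n M G hG).2.2.2.2.1 ℝ
  obtain ⟨ρ, ρ0, hρ⟩ := nhds_basis_closedBall.mem_iff.1 (e.open_target.mem_nhds (e.map_source hx))
  obtain ⟨C, hC⟩ := hGP n r M G _ U H s c₀ e x ρ D.kae tub he hx hU h0 ρ0
  refine ⟨C, fun j hj σ hσ κ k0 => ?_⟩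
  obtain ⟨v, sv, hv⟩ := D.reg
  have m0 : (0 : ℝ) < 1 / (k + 1 : ℕ) := by positivity
  have m1 : (1 / (k + 1 : ℕ) : ℝ) ≤ 1 := by
    rw [div_le_one (by positivity)]; exact_mod_cast k.succ_pos
  obtain ⟨I, hI⟩ := kli hG D.sB D.wB m0 hc hl
  have cB := D.wB.nr_sm D.sB.toSecC
  have cE := D.wE.nr_sm D.sE.toSecC
  have cO := D.dO.wt.nr_sm D.dO.hol.toSecC
  have rE := D.wE.nr_rep D.sE.toSecC
  have rO := D.dO.wt.nr_rep D.dO.hol.toSecC
  have nB := M.nrC_nonneg φB f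
  have nE := M.nrC_nonneg φE g
  have nO := M.nrC_nonneg Ψ h
  obtain ⟨K, K0, hK⟩ := (cE.add (Mf.sm_const 1)).exists_bound
  obtain ⟨P, P0, hP⟩ := ((cE.pow k).mul (cO.pow (k + 1))).exists_bound
  obtain ⟨Q, Q0, hQ⟩ := (cB.mul (cE.pow k)).exists_bound
  obtain ⟨V, V0, hV⟩ := (sv.const_mul (1 / (k + 1 : ℕ) : ℝ)).exists_bound
  have a1 := D.wL.pw (j + 1)
  have w0 := wt_ml (wt_ml a1.1 D.wE) D.dO.wt
  obtain ⟨B, B0, hB⟩ := st_BDU.1 n M _ _ U _ σ a1.1 tub.opn hσ tub.cl.isCompact fun _ h => h.1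
  obtain ⟨N, hN⟩ : ∃ N : M.X → ℝ,
      N = fun y => M.nrC φB f y * (M.nrC φE g y ^ k * M.nrC Ψ h y ^ (k + 1)) := ⟨_, rfl⟩
  have N0 : ∀ y, 0 ≤ N y := fun y => by
    rw [hN]; exact mul_nonneg (nB y) (mul_nonneg (pow_nonneg (nE y) _) (pow_nonneg (nO y) _))
  obtain ⟨w, hw⟩ : ∃ w : ℝ → M.X → ℝ,
      w = fun d y => (1 / (k + 1 : ℕ) : ℝ) * (v y + Real.log (N y + d)) := ⟨_, rfl⟩
  have sw : ∀ d, 0 < d → M.Sm (w d) ∧ M.All fun e z => ((1 / (k + 1 : ℕ) : ℝ) • M.hw φ e z +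
      M.hw φE e z + M.hw Ψ e z + M.hs (w d) e z + M.ric G e z).PosSemidef := by
    rw [hw, hN]; exact hv
  have ew : ∀ d, 0 < d → ∀ y, Real.exp (-w d y) =
      Real.exp (-(1 / (k + 1 : ℕ) * v y)) * (N y + d) ^ (-(1 / (k + 1 : ℕ) : ℝ)) := fun d hd y => by
    rw [hw]; exact exp_w (add_pos_of_nonneg_of_pos (N0 y) hd)
  have mono : ∀ d d', 0 < d → d ≤ d' → ∀ y, w d y ≤ w d' y := fun d d' hd h' y => by
    rw [hw]
    exact mul_le_mul_of_nonneg_left (add_le_add_right (Real.log_le_log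
      (add_pos_of_nonneg_of_pos (N0 y) hd) (by linarith)) _) m0.le
  have wd := fun d hd => w0.addF (sw d hd).1
  obtain ⟨B', hB'⟩ := (isCompact_closedBall (e x) ρ).bddAbove_image
    (f := ((((j + 1 : ℕ) : ℝ) • φ + φE + Ψ + fun e z => w 1 (e.symm z) : M.Fam ℝ)) e) fun z hz =>
    ((wd 1 one_pos).1.sm e he z (hρ hz)).continuousAt.continuousWithinAt
  obtain ⟨A, hA⟩ := hC (max (max (B * Real.exp V * K * I) 0) B') (le_max_of_le_left (le_max_right _ _))
  have sec : SecU M (ml (ml (L.pw (j + 1)) LE) LO) U fun e z => σ e z * g e z * h e z :=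
    ⟨fun e he z hz hU => ((hσ.hol e he z hz hU).mul (D.sE.hol e he z hz)).mul (D.dO.hol.hol e he z hz),
      fun e he e' he' y hy hy' hU => by
        rw [hσ.cmp e he e' he' y hy hy' hU, D.sE.cmp e he e' he' y hy hy',
          D.dO.hol.cmp e he e' he' y hy hy']
        simp only [ml]
        ring⟩
  have key : ∀ d ∈ Ioc (0 : ℝ) 1, ∃ t, M.HSecC (ml (ml (L.pw (j + 1)) LE) LO) t ∧
      ∫ y, M.nrC (((j + 1 : ℕ) : ℝ) • φ + φE + Ψ + fun e z => w d (e.symm z)) t y ∂M.mu G ≤ A ∧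
      ‖t e (e x) - σ e (e x) * g e (e x) * h e (e x)‖ ≤ κ ∧
      ‖fderiv ℂ (t e) (e x) - fderiv ℂ (fun z => σ e z * g e z * h e z) (e x)‖ ≤ κ := by
    intro d hd
    have cq : Continuous fun y => B * (M.nrC φE g y * M.nrC Ψ h y * Real.exp (-w d y)) :=
      continuous_const.mul ((cE.mul cO).mul (sw d hd.1).1.neg.exp).continuous
    refine hA κ k0 _ _ _ _ (wd d hd.1).1 (fun e he z hz => ?_) sec cq
      (fun y => mul_nonneg B0 (mul_nonneg (mul_nonneg (nE y) (nO y)) (Real.exp_pos _).le)) ?_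
      (fun e he z hz h1 h2 => ?_) fun z hz _ => le_max_of_le_right
        (le_trans ?_ (hB' (mem_image_of_mem _ (ball_subset_closedBall hz))))
    · have p := tub.psd e he z hz
      have q := (wd d hd.1).2 e he z hz
      simp only [Pi.zero_apply, sub_zero] at p
      have u := ((sw d hd.1).2 e he z hz).add (p.smul (show 0 ≤ (j : ℝ) + 1 - 1 / (k + 1 : ℕ) - C by
        linarith))
      beta_reduce at q
      rw [Mf.hw_add ((wt_ml a1.1 D.wE).sm e he z hz) (D.dO.wt.sm e he z hz),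
        Mf.hw_add (a1.1.sm e he z hz) (D.wE.sm e he z hz), a1.2 e he z hz] at q
      refine (congrArg Matrix.PosSemidef ?_).mp u
      rw [Pi.add_apply, Pi.add_apply, q, Pi.smul_apply, Pi.smul_apply]
      push_cast
      module
    · refine le_max_of_le_left (le_max_of_le_left ?_)
      have dP := div_pos hd.1 P0
      refine (integral_mono (hint _ cq)
        ((hint _ (ct_rp cB.continuous nB dP (-(1 / (k + 1 : ℕ) : ℝ)))).const_mul (B * Real.exp V * K))
        fun y => ?_).trans ?_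
      · have e1 : M.nrC φE g y + 1 ≤ K := (le_abs_self _).trans (hK y)
        have e2 := rp_key k.succ_pos (nB y) (mul_nonneg (pow_nonneg (nE y) k)
          (pow_nonneg (nO y) (k + 1))) ((le_abs_self _).trans (hP y)) P0 hd.1 K0.le
          (x := M.nrC φE g y * M.nrC Ψ h y) (by
            rw [mul_pow, pow_succ' (M.nrC φE g y), mul_assoc]
            refine mul_le_mul_of_nonneg_right ?_
              (mul_nonneg (pow_nonneg (nE y) k) (pow_nonneg (nO y) _))
            exact (by linarith : M.nrC φE g y ≤ K).trans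
              (le_self_pow₀ (by linarith [nE y]) k.succ_ne_zero))
        have e3 : Real.exp (-(1 / (k + 1 : ℕ) * v y)) ≤ Real.exp V :=
          Real.exp_le_exp.2 ((neg_le_abs _).trans (hV y))
        beta_reduce
        rw [ew d hd.1, hN]
        calc _ = B * (Real.exp (-(1 / (k + 1 : ℕ) * v y)) * (M.nrC φE g y * M.nrC Ψ h y *
            (M.nrC φB f y * (M.nrC φE g y ^ k * M.nrC Ψ h y ^ (k + 1)) + d) ^
              (-(1 / (k + 1 : ℕ) : ℝ)))) := by ring
          _ ≤ B * (Real.exp V * (K * (M.nrC φB f y + d / P) ^ (-(1 / (k + 1 : ℕ) : ℝ)))) := by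
            refine mul_le_mul_of_nonneg_left (mul_le_mul e3 e2 (mul_nonneg (mul_nonneg (nE y) (nO y))
              (Real.rpow_nonneg ?_ _)) (Real.exp_pos _).le) B0
            have := N0 y
            rw [hN] at this
            linarith [hd.1]
          _ = _ := by ring
      · rw [integral_const_mul]
        exact mul_le_mul_of_nonneg_left (hI _ dP) (by positivity)
    · have b := hB e he z hz ⟨h1, h2⟩
      beta_reduce at b ⊢
      rw [rE e he z hz, rO e he z hz]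
      refine le_trans (le_of_eq ?_) (mul_le_mul_of_nonneg_right b (mul_nonneg (mul_nonneg
        (mul_nonneg (normSq_nonneg _) (Real.exp_pos _).le)
        (mul_nonneg (normSq_nonneg _) (Real.exp_pos _).le)) (Real.exp_pos _).le))
      simp only [Pi.add_apply, map_mul, neg_add, Real.exp_add]
      ring
    · simp only [Pi.add_apply]
      linarith [mono d 1 hd.1 hd.2 (e.symm z)]
  choose! t t1 t2 t3 using key
  obtain ⟨u, u1, u2, u3⟩ := T45.lim45 hG
    (F := fun d => ((j + 1 : ℕ) : ℝ) • φ + φE + Ψ + fun e z => w d (e.symm z)) (s := t) (A := A)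
    (fun d hd => (wd d hd.1).1) (fun d d' hd h' _ e _ z _ => by
      simp only [Pi.add_apply]
      linarith [mono d d' hd h' (e.symm z)]) fun d hd => ⟨t1 d hd, t2 d hd⟩
  have cu := w0.nr_sm u1.toSecC
  have nu := M.nrC_nonneg (((j + 1 : ℕ) : ℝ) • φ + φE + Ψ) u
  obtain ⟨u₁, u4, u5⟩ := T45.div45 hG w0 (L₁ := ml (L.pw (j + 1)) LE) D.dO
    (fun _ _ _ _ _ _ _ => rfl) u1 k.succ_pos Q0 (A := Real.exp V * A) fun d hd => by
      have p1 : ∀ y, 0 ≤ Q * M.nrC Ψ h y ^ (k + 1) := fun y => mul_nonneg Q0.le (pow_nonneg (nO y) _)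
      refine (integral_mono (hint _ (cu.continuous.mul (ct_rp (((cO.pow (k + 1)).const_mul Q).continuous)
        p1 hd.1 _))) ((hint _ ((wd d hd.1).1.nr_sm u1.toSecC).continuous).const_mul (Real.exp V))
        fun y => ?_).trans ?_
      · have e1 : (Q * M.nrC Ψ h y ^ (k + 1) + d) ^ (-(1 / (k + 1 : ℕ) : ℝ)) ≤
            (N y + d) ^ (-(1 / (k + 1 : ℕ) : ℝ)) := by
          refine Real.rpow_le_rpow_of_nonpos (add_pos_of_nonneg_of_pos (N0 y) hd.1) ?_
            (neg_nonpos.2 m0.le)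
          rw [hN]
          beta_reduce
          rw [← mul_assoc]
          exact add_le_add_left (mul_le_mul_of_nonneg_right ((le_abs_self _).trans (hQ y))
            (pow_nonneg (nO y) _)) d
        have e2 : 1 ≤ Real.exp V * Real.exp (-(1 / (k + 1 : ℕ) * v y)) := by
          rw [← Real.exp_add]
          exact Real.one_le_exp (by linarith [(le_abs_self _).trans (hV y)])
        have e3 := mul_nonneg (nu y) (Real.rpow_nonneg (add_pos_of_nonneg_of_pos (N0 y) hd.1).le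
          (-(1 / (k + 1 : ℕ) : ℝ)))
        simp only [Pi.mul_apply]
        rw [nr_addF, ew d hd.1]
        calc _ ≤ _ := mul_le_mul_of_nonneg_left e1 (nu y)
          _ ≤ _ := le_mul_of_one_le_left e3 e2
          _ = _ := by ring
      · rw [integral_const_mul]
        exact mul_le_mul_of_nonneg_left (u2 d hd) (Real.exp_pos _).le
  exact ⟨u, u₁, u4, u5, u3 e he _ (e.map_source hx)
    {p | ‖p.1 - σ e (e x) * g e (e x) * h e (e x)‖ ≤ κ ∧
      ‖p.2 - fderiv ℂ (fun z => σ e z * g e z * h e z) (e x)‖ ≤ κ}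
    (IsClosed.and (isClosed_le (by fun_prop) continuous_const)
      (isClosed_le (by fun_prop) continuous_const)) t3⟩

/-- Growth of the log plurigenera from a proper map and a local section. -/
theorem Pd.grow [M.Cpt] (hGP : St_GPK2) (D : Pd M k G L LB LE LO φ φB φE Ψ f g h) {c s c₀ : ℝ}
    (hc : (1 / (k + 1 : ℕ) : ℝ) ≤ c) (hl : M.Lct f c) {U : Set M.X} {H : M.X → E r}
    (tub : Tub M (M.hw φ) U H s c₀) {e : M.Ch} {x : M.X} (he : e ∈ M.C) (hx : x ∈ e.source)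
    (hU : x ∈ U) (h0 : H x = 0) (hs : Function.Surjective (fderiv ℂ (H ∘ e.symm) (e x))) {m : ℕ}
    (m0 : 0 < m) {σ : M.Fam ℂ} (hσ : SecU M (L.pw m) U σ) (n1 : σ e (e x) ≠ 0) (n2 : g e (e x) ≠ 0)
    (n3 : h e (e x) ≠ 0) : RA.CGrow M (LB.tw (k + 1)) r := by
  obtain ⟨C, hC⟩ := D.one hGP hc hl tub he hx hU h0
  obtain ⟨a, j, hj, hCj⟩ : ∃ a j : ℕ, m * a = j + 1 ∧ C ≤ j := by
    have := Nat.le_mul_of_pos_left (⌈C⌉₊ + 1) m0
    refine ⟨⌈C⌉₊ + 1, m * (⌈C⌉₊ + 1) - 1, by omega, (Nat.le_ceil C).trans ?_⟩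
    exact Nat.cast_le.2 (by omega)
  obtain ⟨p, p0, p1, ph⟩ : ∃ p : Option (Fin r) → M.X → ℂ, (∀ y, p none y = 1) ∧
      (∀ i y, p (some i) y = H y i) ∧ ∀ o, HolU M U (p o) :=
    ⟨fun o y => o.elim 1 (H y), fun _ => rfl, fun _ _ => rfl, fun o e he z hz hU => by
      cases o with
      | none => exact differentiableAt_const _
      | some i => exact differentiableAt_pi.1 (tub.hol e he z hz hU) i⟩
  have sec : ∀ o, SecU M (L.pw (j + 1)) U fun e z => p o (e.symm z) * σ e z ^ a := fun o =>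
    ⟨fun e he z hz hU => (ph o e he z hz hU).mul ((hσ.hol e he z hz hU).pow a),
      fun e he e' he' y hy hy' hU => by
      rw [e.left_inv hy, e'.left_inv hy', hσ.cmp e he e' he' y hy hy' hU, mul_pow, mul_assoc, ← hj]
      simp only [Mf.Co.pw, pow_mul]⟩
  have hz := e.map_source hx
  have ex : e.symm (e x) ∈ U := by rw [e.left_inv hx]; exact hU
  have dg := D.sE.hol e he _ hz
  have dh := D.dO.hol.hol e he _ hz
  have eg := dg.continuousAt.eventually_ne n2
  have eh := dh.continuousAt.eventually_ne n3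
  obtain ⟨κ, k0, hκ⟩ := near (st_BDU.2 n r)
    (g := fun o z => p o (e.symm z) * σ e z ^ a * g e z * h e z) (z := e x)
    (fun o => (((sec o).hol e he _ hz ex).mul dg).mul dh) (by
      rw [p0, one_mul]; exact mul_ne_zero (mul_ne_zero (pow_ne_zero a n1) n2) n3) (by
      have : (fun w i => p (some i) (e.symm w) * σ e w ^ a * g e w * h e w /
          (p none (e.symm w) * σ e w ^ a * g e w * h e w)) =ᶠ[𝓝 (e x)] H ∘ e.symm := by
        filter_upwards [(hσ.hol e he _ hz ex).continuousAt.eventually_ne n1, eg, eh] with w b c d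
        funext i
        rw [p0, p1, Function.comp_apply]
        field_simp
      rw [this.fderiv_eq]
      exact hs)
  choose t u t1 t2 t3 using fun o => hC j hCj _ (sec o) κ k0
  have ev : ∀ o, t o e =ᶠ[𝓝 (e x)] fun z => h e z * u o e z := fun o => Mf.AllOn.ev (t2 o) he hz
  obtain ⟨u1, u2⟩ := hκ (fun o => t o e)
    (fun o => (dh.mul ((t1 o).hol e he _ hz)).congr_of_eventuallyEq (ev o)) t3
  have su : ∀ o, M.HSecC ((LB.tw (k + 1)).pw (j + 1)) fun e z => u o e z * g e z ^ j := fun o =>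
    hs_mul' (t1 o) (hs_pw D.sE j) fun a ha b hb y hy hy' => by
      have := D.co a ha b hb y hy hy'
      simp only [ml, Mf.Co.pw, Mf.Co.tw] at this ⊢
      rw [← this]
      ring
  have u3 : u none e (e x) ≠ 0 := fun q =>
    u1 (((ev none).self_of_nhds).trans (by simp only [q, mul_zero]))
  obtain ⟨b, b0, hb⟩ := many (su none) (fun i => su (some i)) he hz
    (mul_ne_zero u3 (pow_ne_zero j n2)) (by
      have : (fun w i => u (some i) e w * g e w ^ j / (u none e w * g e w ^ j)) =ᶠ[𝓝 (e x)]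
          fun w i => t (some i) e w / t none e w := by
        filter_upwards [eventually_all.2 ev, eg, eh] with w b c d
        funext i
        rw [b, b, mul_div_mul_right _ _ (pow_ne_zero j c), mul_div_mul_left _ _ d]
      rw [this.fderiv_eq]
      exact u2)
  refine ⟨j + 1, b, j.succ_pos, b0, Eventually.of_forall fun q => ?_⟩
  obtain ⟨N, hN, w, w1, w2⟩ := hb q
  exact ⟨N, w, hN, fun i => hs_of (w1 i) fun _ _ _ _ _ _ _ => pow_mul _ _ _, w2⟩

end Pool.Agent.Lib.RA2.T56
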